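import Pool.Agent.H14.ZBounds

/-!
# Sums of central values of Dirichlet L-functions over groups of characters
-/

open Filter Topology Set Finset

namespace Pool.Agent.H14

variable {n : ℕ} [NeZero n]

lemma toAddCircle_pos_half {j : ZMod n} (hj : j ≠ 0) :
    HurwitzZeta.hurwitzZeta (ZMod.toAddCircle j) (1 / 2) = (Z ((j.val : ℝ) / n) : ℝ) := by
  rw [ZMod.toAddCircle_apply]
  have hn : (0 : ℝ) < n := Nat.cast_pos.mpr (NeZero.pos n)
  have hv : 0 < j.val := Nat.pos_of_ne_zero (by rwa [Ne, ZMod.val_eq_zero])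
  apply hurwitzZeta_half
  · positivity
  · rw [div_le_one hn]; exact_mod_cast (ZMod.val_lt j).le

/-- Central value as a finite sum of values of `Z`. -/
lemma LFunction_half_eq (hn : 1 < n) (χ : DirichletCharacter ℂ n) :
    χ.LFunction (1 / 2) = (1 / √n : ℝ) * ∑ j : ZMod n, χ j * (Z ((j.val : ℝ) / n) : ℝ) := by
  unfold DirichletCharacter.LFunction ZMod.LFunction
  have e : (n : ℂ) ^ (-(1 / 2) : ℂ) = (1 / √n : ℝ) := by
    have h0 : (0 : ℝ) ≤ (n : ℝ) := by positivity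
    rw [Complex.cpow_neg]
    have := cpow_half (n : ℝ) h0
    push_cast at this ⊢
    rw [this]; simp
  rw [e]
  congr 1
  apply Finset.sum_congr rfl
  intro j _
  by_cases hj : j = 0
  · subst hj
    rw [χ.map_zero' (by omega)]
    simp
  · rw [toAddCircle_pos_half hj]

/-- The annihilator in `ZMod n` of a group of characters, as a finset. -/
noncomputable def Hs (X : Subgroup (DirichletCharacter ℂ n)) : Finset (ZMod n) :=
  open Classical in Finset.univ.filter fun a => ∀ χ ∈ X, χ a = 1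

lemma mem_Hs {X : Subgroup (DirichletCharacter ℂ n)} {a : ZMod n} :
    a ∈ Hs X ↔ ∀ χ ∈ X, χ a = 1 := by
  classical
  simp [Hs]

lemma isUnit_of_mem_Hs {X : Subgroup (DirichletCharacter ℂ n)} {a : ZMod n} (h : a ∈ Hs X) :
    IsUnit a := by
  have := mem_Hs.mp h 1 (one_mem X)
  by_contra hu
  rw [MulChar.map_nonunit _ hu] at this
  exact zero_ne_one this

lemma one_mem_Hs (X : Subgroup (DirichletCharacter ℂ n)) : (1 : ZMod n) ∈ Hs X :=
  mem_Hs.mpr fun χ _ => by simp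

/-- the finset of characters in `X`. -/
noncomputable def Xs (X : Subgroup (DirichletCharacter ℂ n)) : Finset (DirichletCharacter ℂ n) :=
  open Classical in Finset.univ.filter fun χ => χ ∈ X

omit [NeZero n] in
lemma mem_Xs {X : Subgroup (DirichletCharacter ℂ n)} {χ : DirichletCharacter ℂ n} :
    χ ∈ Xs X ↔ χ ∈ X := by
  classical
  simp [Xs]

omit [NeZero n] in
lemma card_Xs (X : Subgroup (DirichletCharacter ℂ n)) : (Xs X).card = Nat.card X := by
  classical
  rw [Nat.card_eq_fintype_card, Fintype.card_subtype]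
  congr 1

lemma card_Xs_pos (X : Subgroup (DirichletCharacter ℂ n)) : 0 < (Xs X).card :=
  Finset.card_pos.mpr ⟨1, mem_Xs.mpr (one_mem X)⟩

/-- Orthogonality. -/
lemma sum_Xs (X : Subgroup (DirichletCharacter ℂ n)) (a : ZMod n) :
    ∑ χ ∈ Xs X, χ a = if a ∈ Hs X then ((Xs X).card : ℂ) else 0 := by
  split_ifs with h
  · rw [Finset.sum_congr rfl (fun χ hχ => mem_Hs.mp h χ (mem_Xs.mp hχ))]
    simp
  · rw [mem_Hs] at h
    push Not at h
    obtain ⟨χ₀, hχ₀, hne⟩ := h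
    have e : ∑ χ ∈ Xs X, χ a = ∑ χ ∈ Xs X, (χ₀ * χ) a := by
      refine Finset.sum_bij' (fun χ _ => χ₀⁻¹ * χ) (fun χ _ => χ₀ * χ) ?_ ?_ ?_ ?_ ?_
      · intro χ hχ; exact mem_Xs.mpr (mul_mem (inv_mem hχ₀) (mem_Xs.mp hχ))
      · intro χ hχ; exact mem_Xs.mpr (mul_mem hχ₀ (mem_Xs.mp hχ))
      · intro χ _; simp
      · intro χ _; simp
      · intro χ _; simp
    simp only [MulChar.mul_apply, ← Finset.mul_sum] at e
    have : (χ₀ a - 1) * ∑ χ ∈ Xs X, χ a = 0 := by
      rw [sub_mul, one_mul, ← e, sub_self]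
    rcases mul_eq_zero.mp this with h1 | h1
    · exact absurd (sub_eq_zero.mp h1) hne
    · exact h1

/-- First moment over `X`. -/
lemma sum_LFunction_Xs (hn : 1 < n) (X : Subgroup (DirichletCharacter ℂ n)) :
    ∑ χ ∈ Xs X, χ.LFunction (1 / 2) =
      (((Xs X).card / √n * ∑ a ∈ Hs X, Z ((a.val : ℝ) / n) : ℝ) : ℂ) := by
  simp_rw [LFunction_half_eq hn]
  rw [← Finset.mul_sum, Finset.sum_comm]
  have : ∀ j : ZMod n, ∑ χ ∈ Xs X, χ j * ((Z ((j.val : ℝ) / n) : ℝ) : ℂ)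
      = if j ∈ Hs X then ((Xs X).card : ℂ) * ((Z ((j.val : ℝ) / n) : ℝ) : ℂ) else 0 := by
    intro j
    rw [← Finset.sum_mul, sum_Xs]
    split_ifs <;> simp
  simp_rw [this]
  rw [Finset.sum_ite_mem, Finset.univ_inter, ← Finset.mul_sum]
  push_cast
  ring

/-- `|X| · |H| = φ(n)`. -/
lemma card_Xs_mul_card_Hs (X : Subgroup (DirichletCharacter ℂ n)) :
    (Xs X).card * (Hs X).card = n.totient := by
  have h1 : ∑ a : ZMod n, ∑ χ ∈ Xs X, χ a = (((Xs X).card * (Hs X).card : ℕ) : ℂ) := by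
    simp_rw [sum_Xs]
    rw [Finset.sum_ite_mem, Finset.univ_inter, Finset.sum_const]
    push_cast
    simp [mul_comm]
  have h2 : ∑ a : ZMod n, ∑ χ ∈ Xs X, χ a = ((n.totient : ℕ) : ℂ) := by
    rw [Finset.sum_comm]
    have : ∀ χ ∈ Xs X, ∑ a : ZMod n, χ a = if χ = 1 then ((n.totient : ℕ) : ℂ) else 0 := by
      intro χ _
      split_ifs with h
      · subst h
        rw [MulChar.sum_one_eq_card_units, ZMod.card_units_eq_totient]
      · exact MulChar.sum_eq_zero_of_ne_one h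
    rw [Finset.sum_congr rfl this, Finset.sum_ite_eq' (Xs X) (1 : DirichletCharacter ℂ n)]
    rw [if_pos (mem_Xs.mpr (one_mem X))]
  rw [h1] at h2
  exact_mod_cast h2

/-- Parseval for the full group of characters. -/
lemma sum_norm_sq_LFunction (hn : 1 < n) :
    ∑ χ : DirichletCharacter ℂ n, ‖χ.LFunction (1 / 2)‖ ^ 2 =
      n.totient / n * ∑ a ∈ Finset.univ.filter (fun a : ZMod n => IsUnit a),
        Z ((a.val : ℝ) / n) ^ 2 := by
  classical
  have hn0 : (0 : ℝ) < n := Nat.cast_pos.mpr (NeZero.pos n)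
  set z : ZMod n → ℝ := fun a => Z ((a.val : ℝ) / n) with hz
  -- complex version
  have key : ∑ χ : DirichletCharacter ℂ n,
      (starRingEnd ℂ) (∑ j : ZMod n, χ j * (z j : ℂ)) * (∑ j : ZMod n, χ j * (z j : ℂ))
      = (n.totient : ℂ) * ∑ a ∈ Finset.univ.filter (fun a : ZMod n => IsUnit a), ((z a : ℂ)) ^ 2 := by
    have e1 : ∀ χ : DirichletCharacter ℂ n,
        (starRingEnd ℂ) (∑ j : ZMod n, χ j * (z j : ℂ)) * (∑ j : ZMod n, χ j * (z j : ℂ))
        = ∑ a ∈ Finset.univ.filter (fun a : ZMod n => IsUnit a), ∑ b : ZMod n,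
          (χ a⁻¹ * χ b) * ((z a : ℂ) * (z b : ℂ)) := by
      intro χ
      rw [map_sum, Finset.sum_mul_sum]
      rw [← Finset.sum_filter_add_sum_filter_not Finset.univ (fun a : ZMod n => IsUnit a)]
      have : ∑ i ∈ Finset.univ.filter (fun a : ZMod n => ¬ IsUnit a), ∑ j : ZMod n,
          (starRingEnd ℂ) (χ i * (z i : ℂ)) * (χ j * (z j : ℂ)) = 0 := by
        apply Finset.sum_eq_zero
        intro i hi
        apply Finset.sum_eq_zero
        intro j _
        rw [χ.map_nonunit (by simpa using hi)]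
        simp
      rw [this, add_zero]
      apply Finset.sum_congr rfl
      intro a ha
      apply Finset.sum_congr rfl
      intro b _
      have hu : IsUnit a := by simpa using ha
      have : (starRingEnd ℂ) (χ a) = χ a⁻¹ := by
        have h1 : χ a⁻¹ * χ a = 1 := by
          rw [← map_mul, ZMod.inv_mul_of_unit a hu, map_one]
        have h2 : (starRingEnd ℂ) (χ a) = χ⁻¹ a := MulChar.star_apply' χ a
        have h3 : χ⁻¹ a * χ a = 1 := by
          rw [← MulChar.mul_apply, inv_mul_cancel, MulChar.one_apply hu]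
        rw [h2]
        have hne : χ a ≠ 0 := right_ne_zero_of_mul_eq_one h1
        exact mul_right_cancel₀ hne (h3.trans h1.symm)
      rw [map_mul, this, Complex.conj_ofReal]
      ring
    simp_rw [e1]
    rw [Finset.sum_comm, Finset.mul_sum]
    apply Finset.sum_congr rfl
    intro a ha
    rw [Finset.sum_comm]
    have e2 : ∀ b : ZMod n, ∑ χ : DirichletCharacter ℂ n, χ a⁻¹ * χ b * ((z a : ℂ) * (z b : ℂ))
        = if a = b then (n.totient : ℂ) * (z a : ℂ) ^ 2 else 0 := by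
      intro b
      rw [← Finset.sum_mul, DirichletCharacter.sum_char_inv_mul_char_eq ℂ
        (by simpa using ha) b]
      split_ifs with h
      · subst h; ring
      · simp
    simp_rw [e2]
    simp
  have e3 : ∀ χ : DirichletCharacter ℂ n, ((‖χ.LFunction (1 / 2)‖ ^ 2 : ℝ) : ℂ) =
      (1 / n : ℂ) * ((starRingEnd ℂ) (∑ j : ZMod n, χ j * (z j : ℂ)) *
        (∑ j : ZMod n, χ j * (z j : ℂ))) := by
    intro χ
    rw [LFunction_half_eq hn, ← Complex.normSq_eq_norm_sq, Complex.normSq_mul,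
      Complex.normSq_ofReal]
    push_cast
    rw [Complex.normSq_eq_conj_mul_self]
    congr 1
    have : ((√(n : ℝ) : ℝ) : ℂ) * ((√(n : ℝ) : ℝ) : ℂ) = (n : ℂ) := by
      rw [← Complex.ofReal_mul, Real.mul_self_sqrt hn0.le]; simp
    rw [div_mul_div_comm, this]; simp
  have e4 : ((∑ χ : DirichletCharacter ℂ n, ‖χ.LFunction (1 / 2)‖ ^ 2 : ℝ) : ℂ) =
      ((n.totient / n * ∑ a ∈ Finset.univ.filter (fun a : ZMod n => IsUnit a), z a ^ 2 : ℝ) : ℂ) := by
    push_cast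
    have : ∀ χ : DirichletCharacter ℂ n, ((‖χ.LFunction (1 / 2)‖ : ℂ)) ^ 2 =
        ((‖χ.LFunction (1 / 2)‖ ^ 2 : ℝ) : ℂ) := by intro χ; push_cast; rfl
    simp_rw [this, e3]
    rw [← Finset.mul_sum, key]
    ring
  exact_mod_cast e4

/-- Cauchy–Schwarz counting. -/
lemma sq_norm_sum_le {ι : Type*} (S : Finset ι) (f : ι → ℂ) [DecidablePred fun i => f i ≠ 0] :
    ‖∑ i ∈ S, f i‖ ^ 2 ≤ ((S.filter fun i => f i ≠ 0).card : ℝ) * ∑ i ∈ S, ‖f i‖ ^ 2 := by
  have h1 : ∑ i ∈ S, f i = ∑ i ∈ S.filter (fun i => f i ≠ 0), f i := by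
    rw [Finset.sum_filter_ne_zero]
  have h2 : ‖∑ i ∈ S, f i‖ ≤ ∑ i ∈ S.filter (fun i => f i ≠ 0), ‖f i‖ := by
    rw [h1]; exact norm_sum_le _ _
  have h3 : (∑ i ∈ S.filter (fun i => f i ≠ 0), ‖f i‖) ^ 2 ≤
      ((S.filter fun i => f i ≠ 0).card : ℝ) * ∑ i ∈ S.filter (fun i => f i ≠ 0), ‖f i‖ ^ 2 :=
    sq_sum_le_card_mul_sum_sq
  have h4 : ∑ i ∈ S.filter (fun i => f i ≠ 0), ‖f i‖ ^ 2 ≤ ∑ i ∈ S, ‖f i‖ ^ 2 :=
    Finset.sum_le_sum_of_subset_of_nonneg (Finset.filter_subset _ _) (fun _ _ _ => by positivity)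
  calc ‖∑ i ∈ S, f i‖ ^ 2 ≤ (∑ i ∈ S.filter (fun i => f i ≠ 0), ‖f i‖) ^ 2 := by gcongr
    _ ≤ _ := h3
    _ ≤ _ := by gcongr

end Pool.Agent.H14
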