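import Mathlib

/-!
# The L-function attached to a Dirichlet character
-/

namespace Pool.Agent.H14

/-- The L-function of the primitive Dirichlet character inducing `χ`.  For `χ` in the group
`X_F` of Dirichlet characters mod `n` attached to a subfield `F` of `ℚ(ζ_n)`, this is the Artin
L-function `L(s, χ, F/ℚ)` of the corresponding irreducible character of `Gal(F/ℚ)`. -/
noncomputable def artinL {n : ℕ} [NeZero n] (χ : DirichletCharacter ℂ n) (s : ℂ) : ℂ :=
  haveI : NeZero χ.conductor := ⟨χ.conductor_ne_zero⟩
  χ.primitiveCharacter.LFunction s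

/-- The imprimitive L-function differs from `artinL` by finitely many Euler factors. -/
lemma LFunction_eq_artinL_mul {n : ℕ} [NeZero n] (χ : DirichletCharacter ℂ n) {s : ℂ}
    (hs : s ≠ 1) :
    ∃ c : ℂ, χ.LFunction s = artinL χ s * c := by
  haveI : NeZero χ.conductor := ⟨χ.conductor_ne_zero⟩
  have := DirichletCharacter.LFunction_changeLevel (N := n) χ.conductor_dvd_level
    χ.primitiveCharacter (s := s) (Or.inr hs)
  rw [DirichletCharacter.changeLevel_primitiveCharacter] at this
  exact ⟨_, this⟩

lemma artinL_ne_zero_of_LFunction_ne_zero {n : ℕ} [NeZero n] {χ : DirichletCharacter ℂ n} {s : ℂ}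
    (hs : s ≠ 1) (h : χ.LFunction s ≠ 0) : artinL χ s ≠ 0 := by
  obtain ⟨c, hc⟩ := LFunction_eq_artinL_mul χ hs
  intro h0
  exact h (by rw [hc, h0, zero_mul])

/-- For a primitive character nothing changes. -/
lemma artinL_eq_of_isPrimitive {n : ℕ} [NeZero n] {χ : DirichletCharacter ℂ n}
    (hχ : χ.IsPrimitive) (s : ℂ) : artinL χ s = χ.LFunction s := by
  have key : ∀ (m : ℕ) (hm : NeZero m) (hdvd : m ∣ n) (ψ : DirichletCharacter ℂ m), m = n →
      DirichletCharacter.changeLevel hdvd ψ = χ → ψ.LFunction s = χ.LFunction s := by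
    intro m hm hdvd ψ hmn h
    subst hmn
    rw [DirichletCharacter.changeLevel_self] at h
    rw [h]
  exact key χ.conductor ⟨χ.conductor_ne_zero⟩ χ.conductor_dvd_level χ.primitiveCharacter
    ((DirichletCharacter.isPrimitive_def χ).mp hχ) χ.changeLevel_primitiveCharacter

end Pool.Agent.H14
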