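import Pool.Agent.H14.Moments
import Pool.Agent.H14.Defs

/-!
# Characters outside a proper subgroup
-/

open Filter Topology Set Finset

namespace Pool.Agent.H14

variable {n : ℕ} [NeZero n]

/-- The subgroup of characters with `χ a = 1`. -/
def fixSub (a : (ZMod n)ˣ) : Subgroup (DirichletCharacter ℂ n) where
  carrier := {χ | χ a = 1}
  mul_mem' := by
    intro χ ψ hχ hψ
    simp only [Set.mem_ofPred_eq] at *
    rw [MulChar.mul_apply, hχ, hψ, one_mul]
  one_mem' := by simp [MulChar.one_apply_coe]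
  inv_mem' := by
    intro χ hχ
    simp only [Set.mem_ofPred_eq] at *
    have : χ⁻¹ a * χ a = 1 := by
      rw [← MulChar.mul_apply, inv_mul_cancel, MulChar.one_apply a.isUnit]
    rw [hχ, mul_one] at this
    exact this

omit [NeZero n] in
lemma mem_fixSub {a : (ZMod n)ˣ} {χ : DirichletCharacter ℂ n} : χ ∈ fixSub a ↔ χ a = 1 := Iff.rfl

lemma Hs_top : Hs (⊤ : Subgroup (DirichletCharacter ℂ n)) = {1} := by
  ext a
  rw [mem_Hs, Finset.mem_singleton]
  constructor
  · intro h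
    by_contra hne
    obtain ⟨χ, hχ⟩ := DirichletCharacter.exists_apply_ne_one_of_hasEnoughRootsOfUnity ℂ hne
    exact hχ (h χ (Subgroup.mem_top χ))
  · rintro rfl χ _
    simp

omit [NeZero n] in
lemma Xs_top : Xs (⊤ : Subgroup (DirichletCharacter ℂ n)) = Finset.univ := by
  ext χ; simp [mem_Xs]

/-- **The average of `L(1/2, χ)` over the complement of a subgroup is at least `1 - 1/√2`.** -/
lemma sum_compl_ge (hn : 1 < n) (Y : Subgroup (DirichletCharacter ℂ n)) :
    ∃ r : ℝ, ∑ χ ∈ Finset.univ \ Xs Y, χ.LFunction (1 / 2) = (r : ℂ) ∧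
      (1 - 1 / √2) * ((n.totient : ℝ) - (Xs Y).card) ≤ r := by
  classical
  have hn0 : (0 : ℝ) < n := Nat.cast_pos.mpr (NeZero.pos n)
  have hsn : 0 < √(n : ℝ) := Real.sqrt_pos.mpr hn0
  have h1 := sum_LFunction_Xs hn (⊤ : Subgroup (DirichletCharacter ℂ n))
  have h2 := sum_LFunction_Xs hn Y
  have hcard := card_Xs_mul_card_Hs Y
  have hcardT := card_Xs_mul_card_Hs (⊤ : Subgroup (DirichletCharacter ℂ n))
  rw [Hs_top, Finset.card_singleton, mul_one] at hcardT
  rw [Hs_top, Finset.sum_singleton, hcardT] at h1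
  have hval1 : (((1 : ZMod n).val : ℕ) : ℝ) = 1 := by
    have : Fact (1 < n) := ⟨hn⟩
    rw [ZMod.val_one]; simp
  rw [hval1] at h1
  refine ⟨(n.totient : ℝ) / √n * Z (1 / n) -
    (Xs Y).card / √n * ∑ a ∈ Hs Y, Z ((a.val : ℝ) / n), ?_, ?_⟩
  · rw [Finset.sum_sdiff_eq_sub (Finset.subset_univ _), ← Xs_top, h1, h2]
    push_cast
    ring
  · have hcard' : ((Xs Y).card : ℝ) * (Hs Y).card = n.totient := by exact_mod_cast hcard
    have e : (n.totient : ℝ) / √n * Z (1 / n) -
        (Xs Y).card / √n * ∑ a ∈ Hs Y, Z ((a.val : ℝ) / n)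
        = (Xs Y).card / √n * ∑ a ∈ Hs Y, (Z (1 / n) - Z ((a.val : ℝ) / n)) := by
      rw [Finset.sum_sub_distrib, Finset.sum_const, nsmul_eq_mul, ← hcard']
      ring
    rw [e]
    have h3 : ((Hs Y).card - 1 : ℝ) * ((1 - 1 / √2) * √n) ≤
        ∑ a ∈ Hs Y, (Z (1 / n) - Z ((a.val : ℝ) / n)) := by
      rw [← Finset.add_sum_erase _ _ (one_mem_Hs Y), hval1, sub_self, zero_add]
      have hc : (((Hs Y).erase 1).card : ℝ) = (Hs Y).card - 1 := by
        rw [Finset.card_erase_of_mem (one_mem_Hs Y)]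
        have : 1 ≤ (Hs Y).card := Finset.card_pos.mpr ⟨1, one_mem_Hs Y⟩
        push_cast [Nat.cast_sub this]
        ring
      rw [← hc, ← nsmul_eq_mul, ← Finset.sum_const]
      apply Finset.sum_le_sum
      intro b hb
      rw [Finset.mem_erase] at hb
      exact Z_one_sub_Z hn (isUnit_of_mem_Hs hb.2) hb.1
    calc (1 - 1 / √2) * ((n.totient : ℝ) - (Xs Y).card)
        = (Xs Y).card / √n * (((Hs Y).card - 1 : ℝ) * ((1 - 1 / √2) * √n)) := by
          rw [← hcard']; field_simp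
      _ ≤ _ := mul_le_mul_of_nonneg_left h3 (by positivity)

/-- Counting version. -/
lemma count_compl (hn : 1 < n) (a : (ZMod n)ˣ) (ha : a ≠ 1) :
    (n.totient : ℝ) ≤ 47 * (Real.log n + 3.2) *
      (Nat.card {χ : DirichletCharacter ℂ n // χ a ≠ 1 ∧ artinL χ (1 / 2) ≠ 0} : ℝ) := by
  classical
  have hn0 : (0 : ℝ) < n := Nat.cast_pos.mpr (NeZero.pos n)
  have hlog : 0 ≤ Real.log n := Real.log_nonneg (by exact_mod_cast hn.le)
  set Y := fixSub a with hY
  obtain ⟨r, hr, hrle⟩ := sum_compl_ge hn Y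
  have haH : ((a : ZMod n)) ∈ Hs Y := mem_Hs.mpr fun χ hχ => hχ
  have ha1 : (a : ZMod n) ≠ 1 := by
    intro h; apply ha; ext; simpa using h
  have hcard := card_Xs_mul_card_Hs Y
  have h2 : 2 ≤ (Hs Y).card := by
    have : ({(1 : ZMod n), (a : ZMod n)} : Finset (ZMod n)) ⊆ Hs Y := by
      intro x hx
      simp only [Finset.mem_insert, Finset.mem_singleton] at hx
      rcases hx with rfl | rfl
      · exact one_mem_Hs Y
      · exact haH
    have h3 := Finset.card_le_card this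
    rw [Finset.card_pair (Ne.symm ha1)] at h3
    exact h3
  have hYle : 2 * ((Xs Y).card : ℝ) ≤ n.totient := by
    have : (Xs Y).card * 2 ≤ n.totient := by
      rw [← hcard]; exact Nat.mul_le_mul_left _ h2
    have h4 : (((Xs Y).card * 2 : ℕ) : ℝ) ≤ n.totient := by exact_mod_cast this
    push_cast at h4; linarith
  have hφ : (0 : ℝ) < n.totient := by exact_mod_cast Nat.totient_pos.mpr (by omega)
  obtain ⟨s2a, s2b⟩ := sqrt_two_bounds
  have hc : (0.29289 : ℝ) ≤ 1 - 1 / √2 := by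
    have h3 : 1 / √2 = √2 / 2 := by
      rw [div_eq_div_iff (by positivity) (by norm_num)]
      have := Real.mul_self_sqrt (show (0:ℝ) ≤ 2 by norm_num)
      linarith
    rw [h3]; linarith
  have hr2 : 0.146445 * (n.totient : ℝ) ≤ r := by
    refine le_trans ?_ hrle
    have : (n.totient : ℝ) / 2 ≤ (n.totient : ℝ) - (Xs Y).card := by linarith
    calc 0.146445 * (n.totient : ℝ) = 0.29289 * ((n.totient : ℝ) / 2) := by ring
      _ ≤ (1 - 1 / √2) * ((n.totient : ℝ) / 2) :=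
        mul_le_mul_of_nonneg_right hc (by positivity)
      _ ≤ _ := mul_le_mul_of_nonneg_left this (by linarith)
  have hCS := sq_norm_sum_le (Finset.univ \ Xs Y) (fun χ : DirichletCharacter ℂ n =>
    χ.LFunction (1 / 2))
  rw [hr, Complex.norm_real, Real.norm_eq_abs, sq_abs] at hCS
  have hM : ∑ χ ∈ Finset.univ \ Xs Y, ‖χ.LFunction (1 / 2)‖ ^ 2 ≤
      n.totient * (Real.log n + 3.2) := by
    refine le_trans ?_ (second_moment hn)
    exact Finset.sum_le_sum_of_subset_of_nonneg (Finset.subset_univ _)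
      (fun _ _ _ => by positivity)
  set N0 := ((Finset.univ \ Xs Y).filter fun χ : DirichletCharacter ℂ n =>
    χ.LFunction (1 / 2) ≠ 0).card with hN0
  have hN : N0 ≤ Nat.card {χ : DirichletCharacter ℂ n // χ a ≠ 1 ∧ artinL χ (1 / 2) ≠ 0} := by
    rw [Nat.card_eq_fintype_card, Fintype.card_subtype]
    apply Finset.card_le_card
    intro χ hχ
    simp only [Finset.mem_filter, Finset.mem_sdiff, Finset.mem_univ, true_and, mem_Xs] at hχ ⊢
    exact ⟨hχ.1, artinL_ne_zero_of_LFunction_ne_zero (by norm_num) hχ.2⟩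
  have hN' : (N0 : ℝ) ≤ (Nat.card {χ : DirichletCharacter ℂ n //
      χ a ≠ 1 ∧ artinL χ (1 / 2) ≠ 0} : ℝ) := by exact_mod_cast hN
  have h5 : (0.146445 * (n.totient : ℝ)) ^ 2 ≤ N0 * (n.totient * (Real.log n + 3.2)) := by
    calc (0.146445 * (n.totient : ℝ)) ^ 2 ≤ r ^ 2 :=
          pow_le_pow_left₀ (by positivity) hr2 2
      _ ≤ _ := hCS
      _ ≤ _ := mul_le_mul_of_nonneg_left hM (by positivity)
  have h6 : 0.146445 ^ 2 * (n.totient : ℝ) ≤ N0 * (Real.log n + 3.2) := by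
    have : (n.totient : ℝ) * (0.146445 ^ 2 * (n.totient : ℝ)) ≤
        (n.totient : ℝ) * (N0 * (Real.log n + 3.2)) := by nlinarith
    exact le_of_mul_le_mul_left this hφ
  have h7 : (N0 : ℝ) * (Real.log n + 3.2) ≤ (Nat.card {χ : DirichletCharacter ℂ n //
      χ a ≠ 1 ∧ artinL χ (1 / 2) ≠ 0} : ℝ) * (Real.log n + 3.2) :=
    mul_le_mul_of_nonneg_right hN' (by linarith)
  nlinarith

end Pool.Agent.H14
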