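import Mathlib

/-!
# The Hurwitz zeta function at the central point `s = 1/2`

For `0 < x ≤ 1` we identify `ζ(1/2, x)` with an explicit convergent real series and prove
explicit lower and upper bounds.
-/

open Complex Filter Topology Set

namespace Pool.Agent.H14

/-- The `n`-th term of the (analytically continued) Hurwitz series. -/
noncomputable def hterm (x : ℝ) (n : ℕ) (s : ℂ) : ℂ :=
  1 / (((n : ℝ) + x : ℝ) : ℂ) ^ s -
    (((((n : ℝ) + x : ℝ) : ℂ) + 1) ^ (1 - s) - (((n : ℝ) + x : ℝ) : ℂ) ^ (1 - s)) / (1 - s)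

/-- Norm bound for a single term. -/
lemma norm_sub_le_aux {c : ℝ} (hc : 0 < c) {s : ℂ} (hs : 0 < s.re) (hs1 : s ≠ 1) :
    ‖1 / (c : ℂ) ^ s - (((c : ℂ) + 1) ^ (1 - s) - (c : ℂ) ^ (1 - s)) / (1 - s)‖
      ≤ ‖s‖ * c ^ (-s.re - 1) := by
  have h1s : (1 - s) ≠ 0 := sub_ne_zero.mpr (Ne.symm hs1)
  have hsne : s ≠ 0 := by intro h; rw [h] at hs; simp at hs
  -- inner estimate
  have inner : ∀ v ∈ Icc c (c + 1), ‖(c : ℂ) ^ (-s) - (v : ℂ) ^ (-s)‖ ≤ ‖s‖ * c ^ (-s.re - 1) := by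
    intro v hv
    have hderiv : ∀ w ∈ Icc c (c + 1), HasDerivWithinAt (fun w : ℝ => (w : ℂ) ^ (-s))
        (-s * (w : ℂ) ^ (-s - 1)) (Icc c (c + 1)) w := by
      intro w hw
      have hw0 : 0 < w := lt_of_lt_of_le hc hw.1
      exact (hasDerivAt_ofReal_cpow_const (x := w) (r := -s) hw0.ne'
        (neg_ne_zero.mpr hsne)).hasDerivWithinAt
    have hbound : ∀ w ∈ Icc c (c + 1), ‖-s * (w : ℂ) ^ (-s - 1)‖ ≤ ‖s‖ * c ^ (-s.re - 1) := by
      intro w hw
      have hw0 : 0 < w := lt_of_lt_of_le hc hw.1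
      rw [norm_mul, norm_neg, norm_cpow_eq_rpow_re_of_pos hw0]
      apply mul_le_mul_of_nonneg_left _ (norm_nonneg _)
      simp only [sub_re, neg_re, one_re]
      exact Real.rpow_le_rpow_of_nonpos hc hw.1 (by linarith)
    have := Convex.norm_image_sub_le_of_norm_hasDerivWithin_le hderiv hbound
      (convex_Icc c (c + 1)) hv (left_mem_Icc.mpr (by linarith))
    refine this.trans ?_
    have h0 : ‖c - v‖ ≤ 1 := by
      rw [Real.norm_eq_abs, abs_le]; constructor <;> linarith [hv.1, hv.2]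
    have hpos : 0 ≤ ‖s‖ * c ^ (-s.re - 1) := by positivity
    calc ‖s‖ * c ^ (-s.re - 1) * ‖c - v‖ ≤ ‖s‖ * c ^ (-s.re - 1) * 1 :=
          mul_le_mul_of_nonneg_left h0 hpos
      _ = _ := mul_one _
  -- outer estimate
  have houter : ∀ w ∈ Icc c (c + 1), HasDerivWithinAt
      (fun w : ℝ => (w : ℂ) * (c : ℂ) ^ (-s) - (w : ℂ) ^ (1 - s) / (1 - s))
      ((c : ℂ) ^ (-s) - (w : ℂ) ^ (-s)) (Icc c (c + 1)) w := by
    intro w hw
    have hw0 : 0 < w := lt_of_lt_of_le hc hw.1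
    have hA : HasDerivAt (fun w : ℝ => (w : ℂ)) 1 w := Complex.ofRealCLM.hasDerivAt
    have h1 := (hasDerivAt_ofReal_cpow_const (x := w) (r := 1 - s) hw0.ne' h1s).div_const (1 - s)
    have h2 := (hA.mul_const ((c : ℂ) ^ (-s))).sub h1
    refine (h2.congr_deriv ?_).hasDerivWithinAt
    rw [show (1 - s - 1) = -s by ring]
    field_simp
  have := Convex.norm_image_sub_le_of_norm_hasDerivWithin_le houter inner
      (convex_Icc c (c + 1)) (left_mem_Icc.mpr (by linarith)) (right_mem_Icc.mpr (by linarith))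
  have e : ‖(c + 1 : ℝ) - c‖ = 1 := by norm_num
  rw [e, mul_one] at this
  refine le_trans (le_of_eq ?_) this
  congr 1
  push_cast
  rw [cpow_neg]
  ring

lemma norm_hterm_le {x : ℝ} (hx : 0 < x) (n : ℕ) {s : ℂ} (hs : 0 < s.re) (hs1 : s ≠ 1) :
    ‖hterm x n s‖ ≤ ‖s‖ * (n + x) ^ (-s.re - 1) := by
  have : (0 : ℝ) < (n : ℝ) + x := by positivity
  exact norm_sub_le_aux this hs hs1

/-- A convex domain on which we compare. -/
def dom : Set ℂ := {s | 1 / 4 < s.re ∧ s.re < 2 ∧ s.im < 3 ∧ s.re - 1 < s.im}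

lemma isOpen_dom : IsOpen dom := by
  have h1 : IsOpen {s : ℂ | 1 / 4 < s.re} := isOpen_lt continuous_const continuous_re
  have h2 : IsOpen {s : ℂ | s.re < 2} := isOpen_lt continuous_re continuous_const
  have h3 : IsOpen {s : ℂ | s.im < 3} := isOpen_lt continuous_im continuous_const
  have h4 : IsOpen {s : ℂ | s.re - 1 < s.im} :=
    isOpen_lt (continuous_re.sub continuous_const) continuous_im
  exact h1.inter (h2.inter (h3.inter h4))

lemma convex_dom : Convex ℝ dom := by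
  have h1 : Convex ℝ {s : ℂ | 1 / 4 < s.re} := convex_halfSpace_re_gt _
  have h2 : Convex ℝ {s : ℂ | s.re < 2} := convex_halfSpace_re_lt _
  have h3 : Convex ℝ {s : ℂ | s.im < 3} := convex_halfSpace_im_lt _
  have h4 : Convex ℝ {s : ℂ | s.re - 1 < s.im} := by
    have : {s : ℂ | s.re - 1 < s.im} = {s : ℂ | (reLm - imLm) s < 1} := by
      ext s; simp only [mem_ofPred_eq, LinearMap.sub_apply, reLm_coe, imLm_coe]
      constructor <;> intro h <;> linarith
    rw [this]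
    exact convex_halfSpace_lt (LinearMap.isLinear _) _
  exact h1.inter (h2.inter (h3.inter h4))

lemma half_mem_dom : (1 / 2 : ℂ) ∈ dom := by
  refine ⟨?_, ?_, ?_, ?_⟩ <;> norm_num

lemma ne_one_of_mem_dom {s : ℂ} (hs : s ∈ dom) : s ≠ 1 := by
  rintro rfl
  have := hs.2.2.2
  norm_num at this

/-- The explicit candidate. -/
noncomputable def Fser (x : ℝ) (s : ℂ) : ℂ := (x : ℂ) ^ (1 - s) / (s - 1) + ∑' n : ℕ, hterm x n s

lemma summable_bound {x : ℝ} (hx : 0 < x) {r : ℝ} (hr : r < -1) :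
    Summable fun n : ℕ => ((n : ℝ) + x) ^ r := by
  have h := (Real.summable_nat_rpow (p := r)).mpr hr
  have hx' := (summable_nat_add_iff 1).mpr h
  refine Summable.of_norm_bounded_eventually_nat (g := fun n : ℕ => (x ⊓ 1) ^ r * ((n : ℝ) + 1) ^ r)
    ?_ ?_
  · have : (fun n : ℕ => ((n : ℝ) + 1) ^ r) = fun n : ℕ => ((n + 1 : ℕ) : ℝ) ^ r := by
      ext n; push_cast; rfl
    exact (this ▸ hx').mul_left _
  · refine Eventually.of_forall fun n => ?_
    have hm : 0 < x ⊓ 1 := lt_min hx one_pos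
    rw [Real.norm_of_nonneg (by positivity), ← Real.mul_rpow hm.le (by positivity)]
    apply Real.rpow_le_rpow_of_nonpos (by positivity) _ (by linarith)
    have h1 : x ⊓ 1 ≤ x := min_le_left _ _
    have h2 : x ⊓ 1 ≤ 1 := min_le_right _ _
    have hn : (0:ℝ) ≤ n := by positivity
    nlinarith

lemma norm_hterm_le_dom {x : ℝ} (hx : 0 < x) (n : ℕ) {s : ℂ} (hs : s ∈ dom) :
    ‖hterm x n s‖ ≤ 5 * ((x ⊓ 1) ^ (-3 : ℝ) * ((n : ℝ) + x) ^ (-(5/4) : ℝ)) := by
  have hs0 : 0 < s.re := by linarith [hs.1]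
  refine (norm_hterm_le hx n hs0 (ne_one_of_mem_dom hs)).trans ?_
  have hnorm : ‖s‖ ≤ 5 := by
    refine (norm_le_abs_re_add_abs_im s).trans ?_
    have h1 : |s.re| ≤ 2 := by rw [abs_le]; constructor <;> linarith [hs.1, hs.2.1]
    have h2 : |s.im| ≤ 3 := by rw [abs_le]; constructor <;> linarith [hs.1, hs.2.1, hs.2.2.1, hs.2.2.2]
    linarith
  have hc : (0 : ℝ) < (n : ℝ) + x := by positivity
  have hm : 0 < x ⊓ 1 := lt_min hx one_pos
  have key : ((n : ℝ) + x) ^ (-s.re - 1) ≤ (x ⊓ 1) ^ (-3 : ℝ) * ((n : ℝ) + x) ^ (-(5/4) : ℝ) := by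
    rcases le_or_gt 1 ((n : ℝ) + x) with h | h
    · have h1 : ((n : ℝ) + x) ^ (-s.re - 1) ≤ ((n : ℝ) + x) ^ (-(5/4) : ℝ) :=
        Real.rpow_le_rpow_of_exponent_le h (by linarith [hs.1])
      have h2 : 1 ≤ (x ⊓ 1) ^ (-3 : ℝ) :=
        Real.one_le_rpow_of_pos_of_le_one_of_nonpos hm (min_le_right _ _) (by norm_num)
      calc ((n : ℝ) + x) ^ (-s.re - 1) ≤ 1 * ((n : ℝ) + x) ^ (-(5/4) : ℝ) := by rw [one_mul]; exact h1
        _ ≤ _ := mul_le_mul_of_nonneg_right h2 (by positivity)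
    · have h1 : ((n : ℝ) + x) ^ (-s.re - 1) ≤ ((n : ℝ) + x) ^ (-3 : ℝ) :=
        Real.rpow_le_rpow_of_exponent_ge hc h.le (by linarith [hs.2.1])
      have h2 : ((n : ℝ) + x) ^ (-3 : ℝ) ≤ (x ⊓ 1) ^ (-3 : ℝ) := by
        apply Real.rpow_le_rpow_of_nonpos hm _ (by norm_num)
        have : (0:ℝ) ≤ n := by positivity
        linarith [min_le_left x 1]
      have h3 : 1 ≤ ((n : ℝ) + x) ^ (-(5/4) : ℝ) :=
        Real.one_le_rpow_of_pos_of_le_one_of_nonpos hc h.le (by norm_num)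
      calc ((n : ℝ) + x) ^ (-s.re - 1) ≤ (x ⊓ 1) ^ (-3 : ℝ) * 1 := by rw [mul_one]; exact h1.trans h2
        _ ≤ _ := mul_le_mul_of_nonneg_left h3 (by positivity)
  exact mul_le_mul hnorm key (by positivity) (by norm_num)

lemma differentiableOn_Fser {x : ℝ} (hx : 0 < x) : DifferentiableOn ℂ (Fser x) dom := by
  unfold Fser
  apply DifferentiableOn.add
  · intro s hs
    have h1 : s - 1 ≠ 0 := sub_ne_zero.mpr (ne_one_of_mem_dom hs)
    have hx' : (x : ℂ) ≠ 0 := by exact_mod_cast hx.ne'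
    apply DifferentiableAt.differentiableWithinAt
    have hid : DifferentiableAt ℂ (fun s : ℂ => 1 - s) s := by fun_prop
    exact DifferentiableAt.fun_div (hid.const_cpow (Or.inl hx')) (by fun_prop) h1
  · refine differentiableOn_tsum_of_summable_norm (u := fun n : ℕ =>
      5 * ((x ⊓ 1) ^ (-3 : ℝ) * ((n : ℝ) + x) ^ (-(5/4) : ℝ))) ?_ ?_ isOpen_dom ?_
    · exact ((summable_bound hx (by norm_num)).mul_left _).mul_left _
    · intro n s hs
      have hc : (0 : ℝ) < (n : ℝ) + x := by positivity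
      have hc' : (((n : ℝ) + x : ℝ) : ℂ) ≠ 0 := by exact_mod_cast hc.ne'
      have hc'' : (((n : ℝ) + x : ℝ) : ℂ) + 1 ≠ 0 := by
        have : (0 : ℝ) < (n : ℝ) + x + 1 := by positivity
        exact_mod_cast this.ne'
      have h1 : 1 - s ≠ 0 := sub_ne_zero.mpr (Ne.symm (ne_one_of_mem_dom hs))
      apply DifferentiableAt.differentiableWithinAt
      unfold hterm
      have hid : DifferentiableAt ℂ (fun s : ℂ => 1 - s) s := by fun_prop
      refine DifferentiableAt.sub ?_ ?_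
      · refine DifferentiableAt.fun_div (by fun_prop)
          (differentiableAt_fun_id.const_cpow (Or.inl hc')) ?_
        rw [Ne, cpow_eq_zero_iff]; tauto
      · exact DifferentiableAt.fun_div ((hid.const_cpow (Or.inl hc'')).fun_sub
          (hid.const_cpow (Or.inl hc'))) hid h1
    · intro n s hs
      exact norm_hterm_le_dom hx n hs

lemma Fser_eq_hurwitz_of_one_lt {x : ℝ} (hx : 0 < x) (hx1 : x ≤ 1) {s : ℂ} (hs : s ∈ dom)
    (hs1 : 1 < s.re) : Fser x s = HurwitzZeta.hurwitzZeta (x : UnitAddCircle) s := by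
  have hH := HurwitzZeta.hasSum_hurwitzZeta_of_one_lt_re (a := x) ⟨hx.le, hx1⟩ hs1
  have hsum : Summable (fun n : ℕ => hterm x n s) := by
    refine Summable.of_norm_bounded (((summable_bound hx (r := -(5/4)) (by norm_num)).mul_left
      ((x ⊓ 1) ^ (-3 : ℝ))).mul_left 5) ?_
    intro n
    exact norm_hterm_le_dom hx n hs
  have h1s : 1 - s ≠ 0 := sub_ne_zero.mpr (Ne.symm (ne_one_of_mem_dom hs))
  have h1s' : s - 1 ≠ 0 := sub_ne_zero.mpr (ne_one_of_mem_dom hs)
  -- the telescoping part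
  set g : ℕ → ℂ := fun n => (((n : ℝ) + x : ℝ) : ℂ) ^ (1 - s) with hg
  have htel : HasSum (fun n : ℕ => (g (n + 1) - g n) / (1 - s))
      (HurwitzZeta.hurwitzZeta (x : UnitAddCircle) s - ∑' n : ℕ, hterm x n s) := by
    have := hH.sub hsum.hasSum
    have e : (fun n : ℕ => (g (n + 1) - g n) / (1 - s)) =
        fun n : ℕ => 1 / ((n : ℂ) + x) ^ s - hterm x n s := by
      funext n
      simp only [hg, hterm]
      push_cast
      rw [show ((n : ℂ) + 1 + x) = (n : ℂ) + x + 1 by ring]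
      ring
    rw [e]
    exact this
  have hlim : Tendsto (fun N : ℕ => ∑ n ∈ Finset.range N, (g (n + 1) - g n) / (1 - s)) atTop
      (𝓝 ((0 - (x : ℂ) ^ (1 - s)) / (1 - s))) := by
    have e : ∀ N : ℕ, ∑ n ∈ Finset.range N, (g (n + 1) - g n) / (1 - s)
        = (g N - (x : ℂ) ^ (1 - s)) / (1 - s) := by
      intro N
      rw [← Finset.sum_div, Finset.sum_range_sub]
      simp [hg]
    simp_rw [e]
    apply Tendsto.div_const
    apply Tendsto.sub_const
    rw [tendsto_zero_iff_norm_tendsto_zero]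
    have e2 : ∀ N : ℕ, ‖g N‖ = ((N : ℝ) + x) ^ (1 - s.re) := by
      intro N
      have hc : (0 : ℝ) < (N : ℝ) + x := by positivity
      simp only [hg]
      rw [norm_cpow_eq_rpow_re_of_pos hc]; simp
    simp_rw [e2]
    have h3 : Tendsto (fun N : ℕ => (N : ℝ) + x) atTop atTop :=
      tendsto_atTop_add_const_right _ _ tendsto_natCast_atTop_atTop
    have h4 := (tendsto_rpow_neg_atTop (y := s.re - 1) (by linarith)).comp h3
    refine h4.congr fun N => ?_
    simp only [Function.comp]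
    congr 1; ring
  have huniq := tendsto_nhds_unique htel.tendsto_sum_nat hlim
  unfold Fser
  have : HurwitzZeta.hurwitzZeta (x : UnitAddCircle) s
      = ∑' n : ℕ, hterm x n s + (0 - (x : ℂ) ^ (1 - s)) / (1 - s) := by
    rw [← huniq]; ring
  rw [this]
  have e3 : (0 - (x : ℂ) ^ (1 - s)) / (1 - s) = (x : ℂ) ^ (1 - s) / (s - 1) := by
    rw [div_eq_div_iff h1s h1s']; ring
  rw [e3]; ring

/-- Analytic continuation: the Hurwitz zeta function equals the explicit series on `dom`. -/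
lemma Fser_eq_hurwitz {x : ℝ} (hx : 0 < x) (hx1 : x ≤ 1) {s : ℂ} (hs : s ∈ dom) :
    Fser x s = HurwitzZeta.hurwitzZeta (x : UnitAddCircle) s := by
  have hA : AnalyticOnNhd ℂ (Fser x) dom :=
    (differentiableOn_Fser hx).analyticOnNhd isOpen_dom
  have hB : AnalyticOnNhd ℂ (HurwitzZeta.hurwitzZeta (x : UnitAddCircle)) dom := by
    refine DifferentiableOn.analyticOnNhd (fun s hs => ?_) isOpen_dom
    exact (HurwitzZeta.differentiableAt_hurwitzZeta _
      (ne_one_of_mem_dom hs)).differentiableWithinAt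
  have hz : (3 / 2 + I : ℂ) ∈ dom := by
    refine ⟨?_, ?_, ?_, ?_⟩ <;> norm_num
  refine AnalyticOnNhd.eqOn_of_preconnected_of_eventuallyEq hA hB convex_dom.isPreconnected hz ?_ hs
  have hopen : IsOpen (dom ∩ {s : ℂ | 1 < s.re}) :=
    isOpen_dom.inter (isOpen_lt continuous_const continuous_re)
  have hmem : (3 / 2 + I : ℂ) ∈ dom ∩ {s : ℂ | 1 < s.re} := ⟨hz, by norm_num⟩
  filter_upwards [hopen.mem_nhds hmem] with t ht
  exact Fser_eq_hurwitz_of_one_lt hx hx1 ht.1 ht.2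

/-- The real term at `s = 1/2`. -/
noncomputable def bterm (x : ℝ) (n : ℕ) : ℝ :=
  1 / √((n : ℝ) + x) - 2 * (√((n : ℝ) + x + 1) - √((n : ℝ) + x))

/-- The value of the Hurwitz zeta function at `s = 1/2`, as an explicit real series. -/
noncomputable def Z (x : ℝ) : ℝ := -2 * √x + ∑' n : ℕ, bterm x n

lemma cpow_half (c : ℝ) (hc : 0 ≤ c) : (c : ℂ) ^ (1 / 2 : ℂ) = (√c : ℝ) := by
  rw [Real.sqrt_eq_rpow, ofReal_cpow hc]; norm_num

lemma hterm_half {x : ℝ} (hx : 0 < x) (n : ℕ) : hterm x n (1 / 2) = (bterm x n : ℝ) := by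
  have hc : (0 : ℝ) < (n : ℝ) + x := by positivity
  unfold hterm bterm
  have e : (1 - 1 / 2 : ℂ) = 1 / 2 := by norm_num
  have e2 : ((((n : ℝ) + x : ℝ) : ℂ) + 1) = (((n : ℝ) + x + 1 : ℝ) : ℂ) := by push_cast; ring
  rw [e, e2, cpow_half _ hc.le, cpow_half _ (by positivity)]
  push_cast
  ring

lemma summable_bterm {x : ℝ} (hx : 0 < x) : Summable (bterm x) := by
  have hsum : Summable (fun n : ℕ => hterm x n (1 / 2)) := by
    refine Summable.of_norm_bounded (((summable_bound hx (r := -(5/4)) (by norm_num)).mul_left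
      ((x ⊓ 1) ^ (-3 : ℝ))).mul_left 5) ?_
    intro n
    exact norm_hterm_le_dom hx n half_mem_dom
  have : (fun n : ℕ => hterm x n (1 / 2)) = fun n => ((bterm x n : ℝ) : ℂ) := by
    ext n; exact hterm_half hx n
  rw [this] at hsum
  exact_mod_cast hsum

/-- **Key identity**: `ζ(1/2, x) = Z x`. -/
theorem hurwitzZeta_half {x : ℝ} (hx : 0 < x) (hx1 : x ≤ 1) :
    HurwitzZeta.hurwitzZeta (x : UnitAddCircle) (1 / 2) = (Z x : ℝ) := by
  rw [← Fser_eq_hurwitz hx hx1 half_mem_dom]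
  unfold Fser Z
  have e : (1 - 1 / 2 : ℂ) = 1 / 2 := by norm_num
  rw [e, cpow_half _ hx.le]
  have : (fun n : ℕ => hterm x n (1 / 2)) = fun n => ((bterm x n : ℝ) : ℂ) := by
    ext n; exact hterm_half hx n
  rw [this, ← ofReal_tsum]
  push_cast
  ring

end Pool.Agent.H14
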