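import Pool.Agent.H14.Compl

/-!
# Joint faithfulness of the Dirichlet characters mod `n` with nonvanishing central value
-/

namespace Pool.Agent.H14.JointFaithful

open Pool.Agent.H14 IsCyclotomicExtension.Rat

/-- Let `K = ℚ(ζ_n)`.  Every nontrivial `σ ∈ Gal(K/ℚ)` is moved by at least
`φ(n) / (47 (log n + 3.2))` of the irreducible characters `χ` of `Gal(K/ℚ)` (viewed as Dirichlet
characters mod `n`) for which `L(1/2, χ) ≠ 0`. -/
theorem result (n : ℕ) [NeZero n] (K : Type*) [Field K] [NumberField K]
    [IsCyclotomicExtension {n} ℚ K] (σ : Gal(K/ℚ)) (hσ : σ ≠ 1) :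
    (n.totient : ℝ) ≤ 47 * (Real.log n + 3.2) *
      (Nat.card {χ : DirichletCharacter ℂ n // χ (galEquivZMod n K σ : (ZMod n)ˣ) ≠ 1 ∧
        artinL χ (1 / 2) ≠ 0} : ℝ) := by
  have ha : galEquivZMod n K σ ≠ 1 := by
    intro h
    exact hσ ((galEquivZMod n K).injective (by rw [h, map_one]))
  have hn : 1 < n := by
    rcases Nat.lt_or_ge 1 n with h | h
    · exact h
    · exfalso
      have h1 : n = 1 := le_antisymm h (NeZero.pos n)
      apply ha
      have h2 : ∀ m : ℕ, m = 1 → Subsingleton (ZMod m)ˣ := by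
        intro m hm; subst hm; infer_instance
      haveI := h2 n h1
      exact Subsingleton.elim _ _
  exact count_compl hn _ ha

end Pool.Agent.H14.JointFaithful
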