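import Pool.Agent.H14.CharSums

/-!
# Explicit first and second moment bounds at `s = 1/2`
-/

open Filter Topology Set Finset

namespace Pool.Agent.H14

lemma sqrt_two_bounds : 1.41421 < √2 ∧ √2 < 1.41422 := by
  constructor
  · rw [Real.lt_sqrt (by norm_num)]; norm_num
  · rw [Real.sqrt_lt' (by norm_num)]; norm_num

lemma sqrt_six_bounds : 2.44948 < √6 ∧ √6 < 2.4495 := by
  constructor
  · rw [Real.lt_sqrt (by norm_num)]; norm_num
  · rw [Real.sqrt_lt' (by norm_num)]; norm_num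

/-- crude lower bound. -/
lemma Z_lower {x : ℝ} (hx : 0 < x) (hx1 : x ≤ 1) : -1.4749 ≤ Z x := by
  refine le_trans ?_ ((zl_ge hx hx1).trans (zl_le_Z hx))
  have h1 : 1 ≤ 1 / √x := by
    rw [le_div_iff₀ (Real.sqrt_pos.mpr hx), one_mul]
    rw [Real.sqrt_le_one]; exact hx1
  have e : (1 : ℝ) + 1 = 2 := by norm_num
  rw [e]
  obtain ⟨ha, hb⟩ := sqrt_two_bounds
  have h3 : 1 / √2 = √2 / 2 := by
    rw [div_eq_div_iff (by positivity) (by norm_num)]
    have := Real.mul_self_sqrt (show (0:ℝ) ≤ 2 by norm_num)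
    linarith
  rw [h3]
  linarith

lemma Z_sq_le {x : ℝ} (hx : 0 < x) (hx1 : x ≤ 1) : Z x ^ 2 ≤ 1 / x + 2.2 := by
  have h0 := Z_lower hx hx1
  have h1 := Z_upper hx
  have hx' : 0 < √x := Real.sqrt_pos.mpr hx
  have e : (1 / √x) ^ 2 = 1 / x := by
    rw [div_pow, one_pow, Real.sq_sqrt hx.le]
  have hpos : 0 < 1 / x := by positivity
  rcases le_or_gt 0 (Z x) with h | h
  · have h2 : Z x ≤ 1 / √x := by linarith [Real.sqrt_nonneg 2]
    have : Z x ^ 2 ≤ (1 / √x) ^ 2 := pow_le_pow_left₀ h h2 2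
    rw [e] at this
    linarith
  · nlinarith

variable {n : ℕ} [NeZero n]

omit [NeZero n] in
lemma val_pos_of_isUnit (hn : 1 < n) {a : ZMod n} (ha : IsUnit a) : 0 < a.val := by
  apply Nat.pos_of_ne_zero
  rw [Ne, ZMod.val_eq_zero]
  rintro rfl
  have : Fact (1 < n) := ⟨hn⟩
  exact not_isUnit_zero ha

lemma sum_Z_sq (hn : 1 < n) :
    ∑ a ∈ Finset.univ.filter (fun a : ZMod n => IsUnit a), Z ((a.val : ℝ) / n) ^ 2
      ≤ n * (Real.log n + 3.2) := by
  classical
  have hn0 : (0 : ℝ) < n := Nat.cast_pos.mpr (NeZero.pos n)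
  have h1 : ∑ a ∈ Finset.univ.filter (fun a : ZMod n => IsUnit a), Z ((a.val : ℝ) / n) ^ 2
      ≤ ∑ a ∈ Finset.univ.filter (fun a : ZMod n => IsUnit a), ((n : ℝ) / a.val + 2.2) := by
    apply Finset.sum_le_sum
    intro a ha
    have hv := val_pos_of_isUnit hn (by simpa using ha : IsUnit a)
    have hv' : (0 : ℝ) < a.val := by exact_mod_cast hv
    refine (Z_sq_le (by positivity) ?_).trans (le_of_eq ?_)
    · rw [div_le_one hn0]; exact_mod_cast (ZMod.val_lt a).le
    · rw [one_div_div]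
  refine h1.trans ?_
  set S := Finset.univ.filter (fun a : ZMod n => IsUnit a) with hS
  set g : ℕ → ℝ := fun j => (n : ℝ) / j + 2.2 with hg
  have h2 : ∑ a ∈ S, ((n : ℝ) / a.val + 2.2) = ∑ j ∈ S.image (fun a : ZMod n => a.val), g j := by
    rw [Finset.sum_image]
    intro a _ b _ hab
    exact ZMod.val_injective n hab
  rw [h2]
  have h3 : S.image (fun a : ZMod n => a.val) ⊆ Finset.Icc 1 n := by
    intro j hj
    rw [Finset.mem_image] at hj
    obtain ⟨a, ha, rfl⟩ := hj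
    have hv := val_pos_of_isUnit hn (by simpa [hS] using ha : IsUnit a)
    rw [Finset.mem_Icc]
    exact ⟨hv, (ZMod.val_lt a).le⟩
  have h4 : ∑ j ∈ S.image (fun a : ZMod n => a.val), g j ≤ ∑ j ∈ Finset.Icc 1 n, g j := by
    apply Finset.sum_le_sum_of_subset_of_nonneg h3
    intro j _ _
    simp only [hg]
    positivity
  refine h4.trans ?_
  simp only [hg]
  rw [Finset.sum_add_distrib]
  have h5 : ∑ j ∈ Finset.Icc 1 n, (n : ℝ) / (j : ℝ) = n * (harmonic n : ℝ) := by
    rw [harmonic_eq_sum_Icc]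
    push_cast
    rw [Finset.mul_sum]
    rfl
  rw [h5, Finset.sum_const, Nat.card_Icc]
  have h6 := harmonic_le_one_add_log n
  simp only [nsmul_eq_mul]
  have h7 : ((n + 1 - 1 : ℕ) : ℝ) = n := by simp
  rw [h7]
  nlinarith

/-- Explicit second moment bound. -/
lemma second_moment (hn : 1 < n) :
    ∑ χ : DirichletCharacter ℂ n, ‖χ.LFunction (1 / 2)‖ ^ 2 ≤
      n.totient * (Real.log n + 3.2) := by
  have hn0 : (0 : ℝ) < n := Nat.cast_pos.mpr (NeZero.pos n)
  rw [sum_norm_sq_LFunction hn]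
  calc (n.totient : ℝ) / n * ∑ a ∈ Finset.univ.filter (fun a : ZMod n => IsUnit a),
        Z ((a.val : ℝ) / n) ^ 2 ≤ (n.totient : ℝ) / n * (n * (Real.log n + 3.2)) := by
        apply mul_le_mul_of_nonneg_left (sum_Z_sq hn) (by positivity)
    _ = _ := by field_simp

/-- First moment difference: `Z(1/n) - Z(b/n) ≥ (1 - 1/√2) √n` for `b ≠ 1`. -/
lemma Z_one_sub_Z {b : ZMod n} (hn : 1 < n) (hb : IsUnit b) (hb1 : b ≠ 1) :
    (1 - 1 / √2) * √n ≤ Z (1 / n) - Z ((b.val : ℝ) / n) := by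
  have hn0 : (0 : ℝ) < n := Nat.cast_pos.mpr (NeZero.pos n)
  have hv := val_pos_of_isUnit hn hb
  have hv2 : 2 ≤ b.val := by
    rcases Nat.lt_or_ge 1 b.val with h | h
    · exact h
    · exfalso
      apply hb1
      have : b.val = 1 := by omega
      have h2 := ZMod.natCast_zmod_val b
      rw [this] at h2
      simpa using h2.symm
  have hv2' : (2 : ℝ) ≤ b.val := by exact_mod_cast hv2
  have hb0 : (0 : ℝ) < (b.val : ℝ) / n := by positivity
  have h1 : (1 : ℝ) / n ≤ (b.val : ℝ) / n := by gcongr; linarith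
  rw [Z_eq_W (by positivity : (0:ℝ) < 1 / n), Z_eq_W hb0]
  have h2 := W_antitone (by positivity : (0:ℝ) < 1 / n) h1
  have e1 : 1 / √(1 / (n : ℝ)) = √n := by
    rw [Real.sqrt_div (by norm_num), Real.sqrt_one, one_div_one_div]
  have e2 : 1 / √((b.val : ℝ) / n) ≤ √n / √2 := by
    rw [Real.sqrt_div (by positivity), one_div_div]
    apply div_le_div_of_nonneg_left (Real.sqrt_nonneg _) (by positivity)
    exact Real.sqrt_le_sqrt hv2'
  rw [e1]
  have e3 : (1 - 1 / √2) * √n = √n - √n / √2 := by ring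
  rw [e3]
  linarith

end Pool.Agent.H14
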