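import Pool.Agent.H14.Compl

/-!
# Thin groups of even characters
-/

open Filter Topology Set Finset

namespace Pool.Agent.H14

variable {n : ℕ} [NeZero n]

/-- The central value of the principal character mod `n` is a nonpositive real number. -/
lemma LFunction_one_half_nonpos (n : ℕ) [NeZero n] :
    ∃ r : ℝ, r ≤ 0 ∧ (1 : DirichletCharacter ℂ n).LFunction (1 / 2) = (r : ℂ) := by
  have h := DirichletCharacter.LFunctionTrivChar_eq_mul_riemannZeta (N := n) (s := 1 / 2)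
    (by norm_num)
  have hz : riemannZeta (1 / 2) = (Z 1 : ℝ) := by
    rw [← HurwitzZeta.hurwitzZeta_zero]
    have : ((1 : ℝ) : UnitAddCircle) = 0 := by
      rw [AddCircle.coe_period]
    rw [← this]
    exact hurwitzZeta_half one_pos le_rfl
  have hZ1 : Z 1 ≤ 0 := by
    have := Z_upper (x := 1) one_pos
    rw [Real.sqrt_one] at this
    linarith [sqrt_two_bounds.1]
  have hp : ∏ p ∈ n.primeFactors, (1 - (p : ℂ) ^ (-(1 / 2) : ℂ)) =
      ((∏ p ∈ n.primeFactors, (1 - 1 / √(p : ℝ)) : ℝ) : ℂ) := by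
    push_cast
    apply Finset.prod_congr rfl
    intro p _
    rw [Complex.cpow_neg]
    have := cpow_half (p : ℝ) (by positivity)
    push_cast at this
    rw [this]
    simp
  refine ⟨(∏ p ∈ n.primeFactors, (1 - 1 / √(p : ℝ))) * Z 1, ?_, ?_⟩
  · apply mul_nonpos_of_nonneg_of_nonpos _ hZ1
    apply Finset.prod_nonneg
    intro p hp
    have h1 : (1 : ℝ) ≤ p := by exact_mod_cast (Nat.prime_of_mem_primeFactors hp).one_le
    have h2 : 1 ≤ √(p : ℝ) := by
      rw [show (1:ℝ) = √1 by simp]; exact Real.sqrt_le_sqrt (by simpa using h1)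
    have h3 : 1 / √(p : ℝ) ≤ 1 := by rw [div_le_one (by linarith)]; exact h2
    linarith
  · rw [DirichletCharacter.LFunctionTrivChar] at h
    rw [h, hz, hp]
    push_cast
    ring

/-- For `a ∈ H` with `H` symmetric: value at `-a`. -/
lemma val_neg_div (hn : 1 < n) {a : ZMod n} (ha : IsUnit a) :
    (((-a).val : ℕ) : ℝ) / n = 1 - (a.val : ℝ) / n := by
  have hn0 : (0 : ℝ) < n := Nat.cast_pos.mpr (NeZero.pos n)
  have hv := val_pos_of_isUnit hn ha
  have hne : a ≠ 0 := by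
    rintro rfl; simp at hv
  haveI : NeZero a := ⟨hne⟩
  rw [ZMod.val_neg_of_ne_zero a]
  rw [Nat.cast_sub (ZMod.val_lt a).le]
  field_simp

/-- Lower bound for the first moment over a group of even characters. -/
lemma T_even_ge (hn : 25 ≤ n) (X : Subgroup (DirichletCharacter ℂ n))
    (hX : ∀ χ ∈ X, χ (-1) = 1) :
    √n - 1.7703 - 0.62704 * ((Hs X).card : ℝ) ≤ ∑ a ∈ Hs X, Z ((a.val : ℝ) / n) := by
  classical
  have hn1 : 1 < n := by omega
  have hn0 : (0 : ℝ) < n := Nat.cast_pos.mpr (NeZero.pos n)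
  have : Fact (1 < n) := ⟨hn1⟩
  have hneg : ∀ a ∈ Hs X, -a ∈ Hs X := by
    intro a ha
    rw [mem_Hs] at ha ⊢
    intro χ hχ
    rw [← neg_one_mul, map_mul, hX χ hχ, ha χ hχ, one_mul]
  have hsymm : ∑ a ∈ Hs X, Z ((a.val : ℝ) / n) = ∑ a ∈ Hs X, Z (1 - (a.val : ℝ) / n) := by
    refine Finset.sum_bij' (fun a _ => -a) (fun a _ => -a) hneg hneg ?_ ?_ ?_
    · intro a _; simp
    · intro a _; simp
    · intro a ha
      have := val_neg_div hn1 (isUnit_of_mem_Hs (hneg a ha))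
      rw [neg_neg] at this
      rw [this]
  have hdouble : 2 * ∑ a ∈ Hs X, Z ((a.val : ℝ) / n) =
      ∑ a ∈ Hs X, (Z ((a.val : ℝ) / n) + Z (1 - (a.val : ℝ) / n)) := by
    rw [Finset.sum_add_distrib, ← hsymm]; ring
  -- bounds for the summands
  obtain ⟨s2a, s2b⟩ := sqrt_two_bounds
  obtain ⟨s6a, s6b⟩ := sqrt_six_bounds
  have hgen : ∀ a ∈ Hs X, -1.25408 ≤ Z ((a.val : ℝ) / n) + Z (1 - (a.val : ℝ) / n) := by
    intro a ha
    have hu := isUnit_of_mem_Hs ha
    have hv := val_pos_of_isUnit hn1 hu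
    have hlt := ZMod.val_lt a
    have h := Z_add_symm (x := (a.val : ℝ) / n) (by positivity)
      (by rw [div_lt_one hn0]; exact_mod_cast hlt)
    linarith
  have hone : √n - 3.0243 ≤ Z (1 / n) + Z (1 - 1 / n) := by
    have hn25 : (25 : ℝ) ≤ n := by exact_mod_cast hn
    have hx : (1 : ℝ) / n ≤ 1 / 25 := one_div_le_one_div_of_le (by norm_num) hn25
    have h1 := (zl_ge (x := 1 / (n : ℝ)) (by positivity) hx).trans (zl_le_Z (by positivity))
    have h2 := Z_lower (x := 1 - 1 / (n : ℝ)) (by linarith) (by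
      have : (0:ℝ) < 1 / n := by positivity
      linarith)
    have e1 : 1 / √(1 / (n : ℝ)) = √n := by
      rw [Real.sqrt_div (by norm_num), Real.sqrt_one, one_div_one_div]
    rw [e1] at h1
    have h3 : √(1 + 1 / 25 : ℝ) ≤ 1.01981 := by
      rw [Real.sqrt_le_left (by norm_num)]; norm_num
    have h4 : (0.9805 : ℝ) ≤ 1 / √(1 + 1 / 25 : ℝ) := by
      rw [le_div_iff₀ (Real.sqrt_pos.mpr (by norm_num))]
      nlinarith
    linarith
  have h1mem := one_mem_Hs X
  have hm1mem := hneg 1 h1mem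
  have hne : (-1 : ZMod n) ≠ 1 := by
    intro h
    have h2 : (2 : ZMod n) = 0 := by
      have : (1 : ZMod n) + 1 = 0 := by nth_rewrite 1 [← h]; simp
      rw [← this]; norm_num
    have h3 : ((2 : ℕ) : ZMod n) = 0 := by exact_mod_cast h2
    rw [ZMod.natCast_eq_zero_iff] at h3
    exact absurd (Nat.le_of_dvd (by norm_num) h3) (by omega)
  have hval1 : (((1 : ZMod n).val : ℕ) : ℝ) = 1 := by rw [ZMod.val_one]; simp
  have hvalm1 : ((((-1 : ZMod n)).val : ℕ) : ℝ) / n = 1 - 1 / n := by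
    rw [val_neg_div hn1 isUnit_one, hval1]
  have hsplit : ∑ a ∈ Hs X, (Z ((a.val : ℝ) / n) + Z (1 - (a.val : ℝ) / n)) =
      (Z (1 / n) + Z (1 - 1 / n)) + ((Z (1 - 1 / n) + Z (1 - (1 - 1 / n))) +
      ∑ x ∈ ((Hs X).erase 1).erase (-1), (Z ((x.val : ℝ) / n) + Z (1 - (x.val : ℝ) / n))) := by
    rw [← Finset.add_sum_erase _ _ h1mem, ← Finset.add_sum_erase _ _
      (Finset.mem_erase.mpr ⟨hne, hm1mem⟩), hval1, hvalm1]
  rw [hsplit] at hdouble
  have hrest : (((Hs X).card : ℝ) - 2) * (-1.25408) ≤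
      ∑ x ∈ ((Hs X).erase 1).erase (-1), (Z ((x.val : ℝ) / n) + Z (1 - (x.val : ℝ) / n)) := by
    have hc : (((((Hs X).erase 1).erase (-1)).card : ℕ) : ℝ) = (Hs X).card - 2 := by
      have h2 : 2 ≤ (Hs X).card := by
        have hsub : ({(1 : ZMod n), (-1 : ZMod n)} : Finset (ZMod n)) ⊆ Hs X := by
          intro x hx
          simp only [Finset.mem_insert, Finset.mem_singleton] at hx
          rcases hx with rfl | rfl
          · exact h1mem
          · exact hm1mem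
        have h3 := Finset.card_le_card hsub
        rwa [Finset.card_pair (Ne.symm hne)] at h3
      rw [Finset.card_erase_of_mem (Finset.mem_erase.mpr ⟨hne, hm1mem⟩),
        Finset.card_erase_of_mem h1mem]
      rw [Nat.sub_sub, Nat.cast_sub h2]
      norm_num
    rw [← hc, ← nsmul_eq_mul, ← Finset.sum_const]
    apply Finset.sum_le_sum
    intro b hb
    exact hgen b (Finset.mem_of_mem_erase (Finset.mem_of_mem_erase hb))
  have e5 : Z (1 - (1 - 1 / (n : ℝ))) = Z (1 / n) := by congr 1; ring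
  rw [e5] at hdouble
  linarith

/-- Nonvanishing in thin groups of even characters. -/
lemma count_thin (hn : 100 ≤ n) (X : Subgroup (DirichletCharacter ℂ n))
    (hX : ∀ χ ∈ X, χ (-1) = 1) (hcard : n.totient ^ 2 ≤ n * Nat.card X ^ 2) :
    1 ≤ Nat.card {χ : DirichletCharacter ℂ n // χ ∈ X ∧ χ ≠ 1 ∧ artinL χ (1 / 2) ≠ 0} ∧
    (Nat.card X : ℝ) ^ 2 ≤ 27 * n.totient * (Real.log n + 3.2) *
      (Nat.card {χ : DirichletCharacter ℂ n // χ ∈ X ∧ χ ≠ 1 ∧ artinL χ (1 / 2) ≠ 0} : ℝ) := by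
  classical
  have hn1 : 1 < n := by omega
  have hn0 : (0 : ℝ) < n := Nat.cast_pos.mpr (NeZero.pos n)
  have hlog : 0 ≤ Real.log n := Real.log_nonneg (by exact_mod_cast hn1.le)
  have hφ : (0 : ℝ) < n.totient := by exact_mod_cast Nat.totient_pos.mpr (by omega)
  have hXpos : (0 : ℝ) < (Xs X).card := by exact_mod_cast card_Xs_pos X
  have hprod : ((Xs X).card : ℝ) * (Hs X).card = n.totient := by
    exact_mod_cast card_Xs_mul_card_Hs X
  rw [← card_Xs] at hcard ⊢
  have hsq : √n ^ 2 = n := Real.sq_sqrt hn0.le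
  have hs0 : 0 < √(n : ℝ) := Real.sqrt_pos.mpr hn0
  have hs10 : (10 : ℝ) ≤ √n := by
    have h100 : (100 : ℝ) ≤ n := by exact_mod_cast hn
    rw [show (10 : ℝ) = √100 by
      rw [show (100 : ℝ) = 10 ^ 2 by norm_num]; exact (Real.sqrt_sq (by norm_num)).symm]
    exact Real.sqrt_le_sqrt h100
  have hH : ((Hs X).card : ℝ) ≤ √n := by
    have h1 : ((n.totient : ℝ)) ^ 2 ≤ n * ((Xs X).card : ℝ) ^ 2 := by exact_mod_cast hcard
    rw [← hprod, mul_pow, mul_comm (n : ℝ)] at h1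
    have h2 : ((Hs X).card : ℝ) ^ 2 ≤ n := le_of_mul_le_mul_left h1 (by positivity)
    exact Real.le_sqrt_of_sq_le h2
  have hT := T_even_ge (by omega : 25 ≤ n) X hX
  have hT2 : 0.1959 * √n ≤ ∑ a ∈ Hs X, Z ((a.val : ℝ) / n) := by
    have : (Hs X).card * (0.62704 : ℝ) ≤ √n * 0.62704 := by
      apply mul_le_mul_of_nonneg_right hH (by norm_num)
    nlinarith
  obtain ⟨r, hr0, hr⟩ := LFunction_one_half_nonpos n
  have hmem1 : (1 : DirichletCharacter ℂ n) ∈ Xs X := mem_Xs.mpr (one_mem X)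
  have hsum : ∑ χ ∈ (Xs X).erase 1, χ.LFunction (1 / 2) =
      (((Xs X).card / √n * ∑ a ∈ Hs X, Z ((a.val : ℝ) / n) - r : ℝ) : ℂ) := by
    have h1 := sum_LFunction_Xs hn1 X
    rw [← Finset.add_sum_erase _ _ hmem1, hr] at h1
    rw [Complex.ofReal_sub, ← h1]
    ring
  set R : ℝ := (Xs X).card / √n * ∑ a ∈ Hs X, Z ((a.val : ℝ) / n) - r with hR
  have hRge : 0.1959 * ((Xs X).card : ℝ) ≤ R := by
    have h1 : ((Xs X).card : ℝ) / √n * (0.1959 * √n) ≤
        (Xs X).card / √n * ∑ a ∈ Hs X, Z ((a.val : ℝ) / n) :=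
      mul_le_mul_of_nonneg_left hT2 (by positivity)
    have h2 : ((Xs X).card : ℝ) / √n * (0.1959 * √n) = 0.1959 * ((Xs X).card : ℝ) := by
      field_simp
    rw [h2] at h1
    linarith
  have hCS := sq_norm_sum_le ((Xs X).erase 1) (fun χ : DirichletCharacter ℂ n =>
    χ.LFunction (1 / 2))
  rw [hsum, Complex.norm_real, Real.norm_eq_abs, sq_abs] at hCS
  have hM : ∑ χ ∈ (Xs X).erase 1, ‖χ.LFunction (1 / 2)‖ ^ 2 ≤
      n.totient * (Real.log n + 3.2) := by
    refine le_trans ?_ (second_moment hn1)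
    exact Finset.sum_le_sum_of_subset_of_nonneg (Finset.subset_univ _)
      (fun _ _ _ => by positivity)
  set N0 := (((Xs X).erase 1).filter fun χ : DirichletCharacter ℂ n =>
    χ.LFunction (1 / 2) ≠ 0).card with hN0
  have hN : N0 ≤ Nat.card {χ : DirichletCharacter ℂ n // χ ∈ X ∧ χ ≠ 1 ∧
      artinL χ (1 / 2) ≠ 0} := by
    rw [Nat.card_eq_fintype_card, Fintype.card_subtype]
    apply Finset.card_le_card
    intro χ hχ
    simp only [Finset.mem_filter, Finset.mem_erase, Finset.mem_univ, true_and, mem_Xs] at hχ ⊢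
    exact ⟨hχ.1.2, hχ.1.1, artinL_ne_zero_of_LFunction_ne_zero (by norm_num) hχ.2⟩
  have hN' : (N0 : ℝ) ≤ (Nat.card {χ : DirichletCharacter ℂ n // χ ∈ X ∧ χ ≠ 1 ∧
      artinL χ (1 / 2) ≠ 0} : ℝ) := by exact_mod_cast hN
  have h5 : (0.1959 * ((Xs X).card : ℝ)) ^ 2 ≤ N0 * (n.totient * (Real.log n + 3.2)) := by
    calc (0.1959 * ((Xs X).card : ℝ)) ^ 2 ≤ R ^ 2 :=
          pow_le_pow_left₀ (by positivity) hRge 2
      _ ≤ _ := hCS
      _ ≤ _ := mul_le_mul_of_nonneg_left hM (by positivity)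
  have hN0pos : 1 ≤ N0 := by
    by_contra hcon
    have h0 : N0 = 0 := by omega
    rw [h0] at h5
    have : 0 < (0.1959 * ((Xs X).card : ℝ)) ^ 2 := by positivity
    simp only [Nat.cast_zero, zero_mul] at h5
    linarith
  refine ⟨hN0pos.trans hN, ?_⟩
  have h6 : (N0 : ℝ) * (n.totient * (Real.log n + 3.2)) ≤
      (Nat.card {χ : DirichletCharacter ℂ n // χ ∈ X ∧ χ ≠ 1 ∧
      artinL χ (1 / 2) ≠ 0} : ℝ) * (n.totient * (Real.log n + 3.2)) :=
    mul_le_mul_of_nonneg_right hN' (by positivity)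
  nlinarith

end Pool.Agent.H14
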