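import Pool.Agent.H14.PPTorsion
import Pool.Agent.H14.Thin

/-!
# Lower bound for the primitive first moment
-/

open Finset

namespace Pool.Agent.H14

/-- for a set of `k ≥ 1` positive integers, `∑ 1/√b ≤ 2√k - 1`. -/
lemma sum_inv_sqrt_le : ∀ (k : ℕ) (S : Finset ℕ), S.card = k + 1 → (∀ b ∈ S, 1 ≤ b) →
    ∑ b ∈ S, 1 / √(b : ℝ) ≤ 2 * √((k + 1 : ℕ) : ℝ) - 1 := by
  intro k
  induction k with
  | zero =>
    intro S hS h1
    obtain ⟨b, rfl⟩ := Finset.card_eq_one.mp hS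
    have hb : (1 : ℝ) ≤ b := by exact_mod_cast h1 b (Finset.mem_singleton_self b)
    have h2 : 1 ≤ √(b : ℝ) := by
      rw [show (1:ℝ) = √1 by simp]; exact Real.sqrt_le_sqrt (by simpa using hb)
    rw [Finset.sum_singleton]
    have h3 : 1 / √(b : ℝ) ≤ 1 := by rw [div_le_one (by linarith)]; exact h2
    norm_num
    have h4 : (√(b : ℝ))⁻¹ ≤ 1 := by rwa [one_div] at h3
    linarith
  | succ k ih =>
    intro S hS h1
    have hne : S.Nonempty := Finset.card_pos.mp (by omega)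
    set M := S.max' hne with hM
    have hMS : M ∈ S := S.max'_mem hne
    have hcard : (S.erase M).card = k + 1 := by
      rw [Finset.card_erase_of_mem hMS]; omega
    have h2 := ih (S.erase M) hcard (fun b hb => h1 b (Finset.mem_of_mem_erase hb))
    rw [← Finset.add_sum_erase _ _ hMS]
    have hMk : k + 2 ≤ M := by
      have hsub : S ⊆ Finset.Icc 1 M := by
        intro b hb
        exact Finset.mem_Icc.mpr ⟨h1 b hb, S.le_max' b hb⟩
      have := Finset.card_le_card hsub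
      rw [Nat.card_Icc, hS] at this
      omega
    have hMk' : ((k + 1 + 1 : ℕ) : ℝ) ≤ M := by exact_mod_cast hMk
    have hpos : (0 : ℝ) < ((k + 1 + 1 : ℕ) : ℝ) := by positivity
    have hs : 0 < √((k + 1 + 1 : ℕ) : ℝ) := Real.sqrt_pos.mpr hpos
    have hs1 : 0 < √((k + 1 : ℕ) : ℝ) := Real.sqrt_pos.mpr (by positivity)
    have h3 : 1 / √(M : ℝ) ≤ 1 / √((k + 1 + 1 : ℕ) : ℝ) :=
      one_div_le_one_div_of_le hs (Real.sqrt_le_sqrt hMk')
    have h4 : 1 / √((k + 1 + 1 : ℕ) : ℝ) ≤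
        2 * (√((k + 1 + 1 : ℕ) : ℝ) - √((k + 1 : ℕ) : ℝ)) := by
      rw [div_le_iff₀ hs]
      have e1 : √((k + 1 + 1 : ℕ) : ℝ) ^ 2 = (k : ℝ) + 2 := by
        rw [Real.sq_sqrt hpos.le]; push_cast; ring
      have e2 : √((k + 1 : ℕ) : ℝ) ^ 2 = (k : ℝ) + 1 := by
        rw [Real.sq_sqrt (by positivity)]; push_cast; ring
      have hle : √((k + 1 : ℕ) : ℝ) ≤ √((k + 1 + 1 : ℕ) : ℝ) :=
        Real.sqrt_le_sqrt (by push_cast; linarith)
      nlinarith [sq_nonneg (√((k + 1 + 1 : ℕ) : ℝ) - √((k + 1 : ℕ) : ℝ))]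
    linarith

section
variable {n : ℕ} [NeZero n]

/-- upper bound for the sum over the annihilator. -/
lemma sum_Hs_le (hn : 1 < n) (X : Subgroup (DirichletCharacter ℂ n)) :
    ∑ a ∈ Hs X, Z ((a.val : ℝ) / n) ≤
      √n * (2 * √((Hs X).card : ℝ) - 1) - √2 * ((Hs X).card : ℝ) := by
  classical
  have hn0 : (0 : ℝ) < n := Nat.cast_pos.mpr (NeZero.pos n)
  have h1 : ∀ a ∈ Hs X, Z ((a.val : ℝ) / n) ≤ √n * (1 / √(a.val : ℝ)) - √2 := by
    intro a ha
    have hv := val_pos_of_isUnit hn (isUnit_of_mem_Hs ha)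
    have hv' : (0 : ℝ) < a.val := by exact_mod_cast hv
    refine (Z_upper (by positivity)).trans (le_of_eq ?_)
    rw [Real.sqrt_div hv'.le]
    field_simp
  refine (Finset.sum_le_sum h1).trans ?_
  rw [Finset.sum_sub_distrib, ← Finset.mul_sum, Finset.sum_const, nsmul_eq_mul]
  have hinj : Set.InjOn (fun a : ZMod n => a.val) (Hs X) := fun a _ b _ h => ZMod.val_injective n h
  have h2 : ∑ a ∈ Hs X, 1 / √(a.val : ℝ) =
      ∑ b ∈ ((Hs X).image (fun a => a.val) : Finset ℕ), 1 / √((b : ℕ) : ℝ) := by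
    rw [Finset.sum_image hinj]
  have hc : ((Hs X).image (fun a => a.val)).card = (Hs X).card := Finset.card_image_of_injOn hinj
  have hpos : 0 < (Hs X).card := Finset.card_pos.mpr ⟨1, one_mem_Hs X⟩
  have h3 := sum_inv_sqrt_le ((Hs X).card - 1) ((Hs X).image (fun a => a.val))
    (by rw [hc]; omega) (by
      intro b hb
      obtain ⟨a, ha, rfl⟩ := Finset.mem_image.mp hb
      exact val_pos_of_isUnit hn (isUnit_of_mem_Hs ha))
  rw [Nat.sub_add_cancel hpos] at h3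
  rw [h2]
  have h4 := mul_le_mul_of_nonneg_left h3 (Real.sqrt_nonneg (n : ℝ))
  linarith

omit [NeZero n] in
/-- `Z(1/n)` from below. -/
lemma Z_inv_ge {N : ℝ} (hN : 0 < N) (hn : N ≤ n) :
    √n - 2 * √(1 + 1 / N) + (1 / 2) * (1 / √(1 + 1 / N)) ≤ Z (1 / n) := by
  have hn0 : (0 : ℝ) < n := hN.trans_le hn
  have hx : (1 : ℝ) / n ≤ 1 / N := one_div_le_one_div_of_le hN hn
  have h1 := (zl_ge (x := 1 / (n : ℝ)) (by positivity) hx).trans (zl_le_Z (by positivity))
  have e1 : 1 / √(1 / (n : ℝ)) = √n := by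
    rw [Real.sqrt_div (by norm_num), Real.sqrt_one, one_div_one_div]
  rwa [e1] at h1

/-- trivial lower bound for the sum over the annihilator. -/
lemma sum_Hs_ge (hn : 25 ≤ n) (X : Subgroup (DirichletCharacter ℂ n)) :
    √n - 1.5494 - 1.4749 * (((Hs X).card : ℝ) - 1) ≤ ∑ a ∈ Hs X, Z ((a.val : ℝ) / n) := by
  classical
  have hn1 : 1 < n := by omega
  have hn0 : (0 : ℝ) < n := Nat.cast_pos.mpr (NeZero.pos n)
  have : Fact (1 < n) := ⟨hn1⟩
  have hone : √n - 1.5494 ≤ Z (1 / n) := by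
    have hn25 : (25 : ℝ) ≤ n := by exact_mod_cast hn
    have h1 := Z_inv_ge (n := n) (N := 25) (by norm_num) hn25
    have h3 : √(1 + 1 / 25 : ℝ) ≤ 1.01981 := by
      rw [Real.sqrt_le_left (by norm_num)]; norm_num
    have h4 : (0.9805 : ℝ) ≤ 1 / √(1 + 1 / 25 : ℝ) := by
      rw [le_div_iff₀ (Real.sqrt_pos.mpr (by norm_num))]
      nlinarith
    linarith
  have h1mem := one_mem_Hs X
  have hval1 : (((1 : ZMod n).val : ℕ) : ℝ) = 1 := by rw [ZMod.val_one]; simp
  rw [← Finset.add_sum_erase _ _ h1mem, hval1]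
  have hrest : (((Hs X).card : ℝ) - 1) * (-1.4749) ≤
      ∑ x ∈ (Hs X).erase 1, Z ((x.val : ℝ) / n) := by
    have hpos : 1 ≤ (Hs X).card := Finset.card_pos.mpr ⟨1, h1mem⟩
    have hc : ((((Hs X).erase 1).card : ℕ) : ℝ) = (Hs X).card - 1 := by
      rw [Finset.card_erase_of_mem h1mem, Nat.cast_sub hpos]
      norm_num
    rw [← hc, ← nsmul_eq_mul, ← Finset.sum_const]
    apply Finset.sum_le_sum
    intro b hb
    have hb' := Finset.mem_of_mem_erase hb
    have hv := val_pos_of_isUnit hn1 (isUnit_of_mem_Hs hb')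
    have hlt := ZMod.val_lt b
    exact Z_lower (by positivity) (by rw [div_le_one hn0]; exact_mod_cast hlt.le)
  linarith

end

end Pool.Agent.H14
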