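import Pool.Agent.H14.PPBound

/-!
# The case `p ≥ 5`
-/

open Finset

namespace Pool.Agent.H14

lemma real_even {S s t : ℝ} (hs0 : 0 < s) (hs : s ^ 2 = 5 ∨ 7 ≤ s ^ 2) (ht : 0 < t)
    (hts : t ^ 2 ≤ s ^ 2 - 1) (hS : s ^ 2 ≤ S) :
    0.04 * S ≤ (S - 1.7703 - 0.62704 * t ^ 2) - 1 / s * ((S / s) * (2 * t - 1) - √2 * t ^ 2) := by
  obtain ⟨s2a, s2b⟩ := sqrt_two_bounds
  have hsq : 0 < s ^ 2 := by positivity
  set r := √2 / s with hr
  have hrs : r * s = √2 := by rw [hr]; field_simp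
  set w := (2 * t - 1) / s ^ 2 with hw
  have hws : w * s ^ 2 = 2 * t - 1 := by rw [hw]; field_simp
  have e : 1 / s * ((S / s) * (2 * t - 1) - √2 * t ^ 2) = S * w - r * t ^ 2 := by
    rw [hr, hw]; field_simp
  rw [e]
  have hw1 : w ≤ 0.96 := by
    rw [hw, div_le_iff₀ hsq]
    nlinarith [sq_nonneg (0.96 * t - 1)]
  have h1 : s ^ 2 * (0.96 - w) ≤ S * (0.96 - w) :=
    mul_le_mul_of_nonneg_right hS (by linarith)
  have h2 : s ^ 2 * (0.96 - w) = 0.96 * s ^ 2 - (2 * t - 1) := by rw [← hws]; ring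
  rw [h2] at h1
  suffices h : 0 ≤ 0.96 * s ^ 2 - 2 * t + 1 - 1.7703 - 0.62704 * t ^ 2 + r * t ^ 2 by nlinarith
  rcases hs with h5 | h7
  · have hs2 : s ≤ 2.2361 := by
      nlinarith
    have hr1 : 0.62704 ≤ r := by
      rw [hr, le_div_iff₀ hs0]; nlinarith
    have ht2 : t ≤ 2 := by nlinarith
    rw [h5]
    nlinarith [mul_nonneg (sub_nonneg.mpr hr1) (sq_nonneg t)]
  · have hs2 : 2.6457 ≤ s := by nlinarith
    have hr1 : r ≤ 0.62704 := by
      rw [hr, div_le_iff₀ hs0]; nlinarith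
    have hts' : t ≤ s := by nlinarith
    have h3 : (0.62704 - r) * t ^ 2 ≤ (0.62704 - r) * s ^ 2 :=
      mul_le_mul_of_nonneg_left (by linarith) (by linarith)
    have h4 : r * s ^ 2 = √2 * s := by rw [← hrs]; ring
    nlinarith [mul_nonneg (sub_nonneg.mpr hs2) (sub_nonneg.mpr hs2)]

lemma real_odd {S s t : ℝ} (hs0 : 0 < s) (hs : 5 ≤ s ^ 2) (ht : 0 < t)
    (hts : 2 * t ^ 2 ≤ s ^ 2 - 1) (hS : s ^ 2 ≤ S) :
    0.04 * S ≤ (S - 1.5494 - 1.4749 * (t ^ 2 - 1)) -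
      1 / s * ((S / s) * (2 * t - 1) - √2 * t ^ 2) := by
  obtain ⟨s2a, s2b⟩ := sqrt_two_bounds
  have hsq : 0 < s ^ 2 := by positivity
  set r := √2 / s with hr
  have hrs : r * s = √2 := by rw [hr]; field_simp
  set w := (2 * t - 1) / s ^ 2 with hw
  have hws : w * s ^ 2 = 2 * t - 1 := by rw [hw]; field_simp
  have e : 1 / s * ((S / s) * (2 * t - 1) - √2 * t ^ 2) = S * w - r * t ^ 2 := by
    rw [hr, hw]; field_simp
  rw [e]
  have hw1 : w ≤ 0.96 := by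
    rw [hw, div_le_iff₀ hsq]
    nlinarith [sq_nonneg (0.96 * t - 1)]
  have h1 : s ^ 2 * (0.96 - w) ≤ S * (0.96 - w) :=
    mul_le_mul_of_nonneg_right hS (by linarith)
  have h2 : s ^ 2 * (0.96 - w) = 0.96 * s ^ 2 - (2 * t - 1) := by rw [← hws]; ring
  rw [h2] at h1
  suffices h : 0 ≤ 0.96 * s ^ 2 - 2 * t + 1 - 1.5494 - 1.4749 * (t ^ 2 - 1) + r * t ^ 2 by
    nlinarith
  have hs2 : 2.236 ≤ s := by nlinarith
  have hr1 : r ≤ 1.4749 := by
    rw [hr, div_le_iff₀ hs0]; nlinarith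
  have h3 : (1.4749 - r) * t ^ 2 ≤ (1.4749 - r) * (s ^ 2 / 2) :=
    mul_le_mul_of_nonneg_left (by linarith) (by linarith)
  have h4 : r * s ^ 2 = √2 * s := by rw [← hrs]; ring
  have h5 : 2 * t ≤ √2 * s := by
    have h22 : √2 ^ 2 = 2 := Real.sq_sqrt (by norm_num)
    have h6 : 0 ≤ √2 * s := by positivity
    apply (abs_le_of_sq_le_sq' _ h6).2
    rw [mul_pow, mul_pow, h22]; nlinarith
  nlinarith [sq_nonneg (0.22255 * s - 0.35356)]

variable {p : ℕ} [hp : Fact p.Prime] {m : ℕ}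

/-- the normalised primitive first moment. -/
noncomputable def Dpp (X : Subgroup (DirichletCharacter ℂ (p ^ (m + 1)))) : ℝ :=
  ∑ a ∈ Hs X, Z ((a.val : ℝ) / (p ^ (m + 1) : ℕ)) -
    1 / √p * ∑ b ∈ Hs (pull X), Z ((b.val : ℝ) / (p ^ m : ℕ))

lemma Dpp_ge_five (hp5 : 5 ≤ p) (hm : 1 ≤ m) (X : Subgroup (DirichletCharacter ℂ (p ^ (m + 1))))
    (hX : ∃ χ ∈ X, χ.IsPrimitive) : 0.04 * √((p ^ (m + 1) : ℕ) : ℝ) ≤ Dpp X := by
  have hlt : 1 < p ^ m := Nat.one_lt_pow (by omega) hp.out.one_lt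
  have hp0 : (0 : ℝ) < p := by exact_mod_cast hp.out.pos
  set s := √(p : ℝ) with hs
  have hs0 : 0 < s := Real.sqrt_pos.mpr hp0
  have hsp : s ^ 2 = p := Real.sq_sqrt hp0.le
  set S := √((p ^ (m + 1) : ℕ) : ℝ) with hSdef
  have hS' : √((p ^ m : ℕ) : ℝ) = S / s := by
    rw [eq_div_iff hs0.ne', hs, hSdef, ← Real.sqrt_mul (by positivity)]
    congr 1; push_cast; ring
  set h := (Hs X).card with hh
  have hpos : 0 < h := Finset.card_pos.mpr ⟨1, one_mem_Hs X⟩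
  have hh' : (Hs (pull X)).card = h := card_Hs_pull hm X hX
  set t := √(h : ℝ) with ht
  have ht0 : 0 < t := Real.sqrt_pos.mpr (by exact_mod_cast hpos)
  have htt : t ^ 2 = h := Real.sq_sqrt (by positivity)
  have hSge : s ^ 2 ≤ S := by
    rw [hsp, hSdef]
    apply Real.le_sqrt_of_sq_le
    have : p ^ 2 ≤ p ^ (m + 1) := Nat.pow_le_pow_right hp.out.pos (by omega)
    exact_mod_cast this
  have hup := sum_Hs_le hlt (pull X)
  rw [hh', hS', ← ht, ← htt] at hup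
  have hup' : 1 / s * ∑ b ∈ Hs (pull X), Z ((b.val : ℝ) / (p ^ m : ℕ)) ≤
      1 / s * ((S / s) * (2 * t - 1) - √2 * t ^ 2) :=
    mul_le_mul_of_nonneg_left hup (by positivity)
  have hn25 : 25 ≤ p ^ (m + 1) := by
    calc 25 = 5 ^ 2 := by norm_num
      _ ≤ p ^ 2 := Nat.pow_le_pow_left hp5 2
      _ ≤ p ^ (m + 1) := Nat.pow_le_pow_right hp.out.pos (by omega)
  have hp2 : p ≠ 2 := by omega
  unfold Dpp
  by_cases hneg : (-1 : ZMod (p ^ (m + 1))) ∈ Hs X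
  · have hlo := T_even_ge hn25 X (fun χ hχ => mem_Hs.mp hneg χ hχ)
    rw [← hh, ← htt] at hlo
    have hdvd := card_Hs_dvd hp2 hm hX
    have hle : h ≤ p - 1 := Nat.le_of_dvd (by omega) hdvd
    have hts : t ^ 2 ≤ s ^ 2 - 1 := by
      rw [htt, hsp]
      have : h + 1 ≤ p := by omega
      have h6 : ((h + 1 : ℕ) : ℝ) ≤ p := by exact_mod_cast this
      push_cast at h6; linarith
    have hs57 : s ^ 2 = 5 ∨ 7 ≤ s ^ 2 := by
      rw [hsp]
      rcases Nat.lt_or_ge 5 p with h5 | h5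
      · right
        have h6 : p ≠ 6 := by
          rintro h6
          have hpr := hp.out
          rw [h6] at hpr
          exact absurd hpr (by norm_num)
        exact_mod_cast (by omega : 7 ≤ p)
      · left
        exact_mod_cast (by omega : p = 5)
    have hmain := real_even hs0 hs57 ht0 hts hSge
    linarith
  · have hlo := sum_Hs_ge hn25 X
    rw [← hh, ← htt] at hlo
    have h2 := two_mul_card_Hs_le hp2 hm hX hneg
    have hts : 2 * t ^ 2 ≤ s ^ 2 - 1 := by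
      rw [htt, hsp]
      have : 2 * h + 1 ≤ p := by omega
      have h6 : ((2 * h + 1 : ℕ) : ℝ) ≤ p := by exact_mod_cast this
      push_cast at h6; linarith
    have hs5 : 5 ≤ s ^ 2 := by rw [hsp]; exact_mod_cast hp5
    have hmain := real_odd hs0 hs5 ht0 hts hSge
    linarith

end Pool.Agent.H14
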