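import Pool.Agent.H14.PPLevel

/-!
# The annihilator of a group of characters of prime power level
-/

open Finset

namespace Pool.Agent.H14

section general
variable {n : ℕ} [NeZero n]

/-- the annihilator as a group of units. -/
def HsG (X : Subgroup (DirichletCharacter ℂ n)) : Subgroup (ZMod n)ˣ where
  carrier := {u | ∀ χ ∈ X, χ (u : ZMod n) = 1}
  one_mem' := by intro χ _; simp
  mul_mem' := by
    intro a b ha hb χ hχ
    rw [Units.val_mul, map_mul, ha χ hχ, hb χ hχ, one_mul]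
  inv_mem' := by
    intro a ha χ hχ
    have h1 := ha χ hχ
    have h2 : χ ((a⁻¹ : (ZMod n)ˣ) : ZMod n) * χ (a : ZMod n) = 1 := by
      rw [← map_mul, ← Units.val_mul, inv_mul_cancel]; simp
    rw [h1, mul_one] at h2
    exact h2

omit [NeZero n] in
lemma mem_HsG' {X : Subgroup (DirichletCharacter ℂ n)} {u : (ZMod n)ˣ} :
    u ∈ HsG X ↔ ∀ χ ∈ X, χ (u : ZMod n) = 1 := Iff.rfl

lemma mem_HsG {X : Subgroup (DirichletCharacter ℂ n)} {u : (ZMod n)ˣ} :
    u ∈ HsG X ↔ (u : ZMod n) ∈ Hs X := by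
  rw [mem_Hs, mem_HsG']

lemma card_HsG (X : Subgroup (DirichletCharacter ℂ n)) : Nat.card (HsG X) = (Hs X).card := by
  have e : (HsG X) ≃ {a : ZMod n // a ∈ Hs X} :=
    { toFun := fun u => ⟨(u.1 : ZMod n), mem_HsG.mp u.2⟩
      invFun := fun a => ⟨(isUnit_of_mem_Hs a.2).unit, mem_HsG.mpr (by simpa using a.2)⟩
      left_inv := by intro u; ext; simp
      right_inv := by intro a; ext; simp }
  rw [Nat.card_congr e]
  simp

end general

section pp

variable {p : ℕ} [hp : Fact p.Prime] {m : ℕ}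

/-- the kernel of reduction from level `p^(m+1)` to level `p^m`. -/
def kerRed (p m : ℕ) : Subgroup (ZMod (p ^ (m + 1)))ˣ :=
  (ZMod.unitsMap (pow_dvd_pow p (Nat.le_succ m))).ker

lemma card_kerRed (hm : 1 ≤ m) : Nat.card (kerRed p m) = p := by
  have h1 := Subgroup.card_mul_index (kerRed p m)
  unfold kerRed at h1 ⊢
  rw [Subgroup.index_ker, MonoidHom.range_eq_top.mpr (ZMod.unitsMap_surjective _),
    Subgroup.card_top, Nat.card_eq_fintype_card (α := (ZMod (p ^ m))ˣ),
    Nat.card_eq_fintype_card (α := (ZMod (p ^ (m + 1)))ˣ), ZMod.card_units_eq_totient,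
    ZMod.card_units_eq_totient, Nat.totient_prime_pow_succ hp.out,
    Nat.totient_prime_pow hp.out hm] at h1
  have hpos : 0 < p ^ (m - 1) * (p - 1) :=
    Nat.mul_pos (pow_pos hp.out.pos _) (Nat.sub_pos_of_lt hp.out.one_lt)
  apply Nat.eq_of_mul_eq_mul_right hpos
  rw [h1, ← mul_assoc, ← pow_succ']
  congr 2; omega

lemma mem_kerRed {u : (ZMod (p ^ (m + 1)))ˣ} :
    u ∈ kerRed p m ↔ (ZMod.cast (u : ZMod (p ^ (m + 1))) : ZMod (p ^ m)) = 1 := by
  unfold kerRed
  rw [MonoidHom.mem_ker, Units.ext_iff, ZMod.unitsMap_val, Units.val_one]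

/-- the annihilator of a group containing a primitive character meets the kernel of reduction
trivially. -/
lemma eq_one_of_mem_kerRed (hm : 1 ≤ m) {X : Subgroup (DirichletCharacter ℂ (p ^ (m + 1)))}
    (hX : ∃ χ ∈ X, χ.IsPrimitive) {u : (ZMod (p ^ (m + 1)))ˣ} (hu : u ∈ HsG X)
    (hk : u ∈ kerRed p m) : u = 1 := by
  by_contra hne
  obtain ⟨χ, hχ, hprim⟩ := hX
  have hcard := card_kerRed (p := p) hm
  have hz : Subgroup.zpowers (⟨u, hk⟩ : kerRed p m) = ⊤ :=
    zpowers_eq_top_of_prime_card (p := p) hcard (by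
      intro h; apply hne; simpa using congrArg Subtype.val h)
  rw [isPrimitive_iff] at hprim
  apply hprim
  have hle : (ZMod.unitsMap (pow_dvd_pow p (Nat.le_succ m))).ker ≤ χ.toUnitHom.ker := by
    intro v hv
    have hv' : (⟨v, hv⟩ : kerRed p m) ∈ Subgroup.zpowers (⟨u, hk⟩ : kerRed p m) := by
      rw [hz]; trivial
    obtain ⟨k, hk'⟩ := Subgroup.mem_zpowers_iff.mp hv'
    have hv2 : u ^ k = v := by simpa using congrArg Subtype.val hk'
    rw [MonoidHom.mem_ker, ← hv2, map_zpow]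
    have : χ.toUnitHom u = 1 := by
      ext
      rw [MulChar.coe_toUnitHom]
      simpa using hu χ hχ
    rw [this, one_zpow]
  obtain ⟨hd, χ₀, h0⟩ := (χ.factorsThrough_iff_ker_unitsMap _).mpr hle
  exact ⟨χ₀, h0.symm⟩

end pp

end Pool.Agent.H14
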