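import Pool.Agent.H14.Compl

/-!
# Characters of prime power conductor: level structure
-/

open Finset

namespace Pool.Agent.H14

variable {p : ℕ} [hp : Fact p.Prime] {m : ℕ}

instance neZeroPow : NeZero (p ^ m) := ⟨pow_ne_zero _ hp.out.ne_zero⟩

omit hp in
lemma pdvd : p ^ m ∣ p ^ (m + 1) := pow_dvd_pow _ (Nat.le_succ m)

/-- inflation of characters from level `p^m` to level `p^(m+1)`. -/
noncomputable def infl (p m : ℕ) [hp : Fact p.Prime] :
    DirichletCharacter ℂ (p ^ m) →* DirichletCharacter ℂ (p ^ (m + 1)) :=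
  DirichletCharacter.changeLevel pdvd

lemma infl_injective : Function.Injective (infl p m) :=
  DirichletCharacter.changeLevel_injective pdvd

/-- for `m ≥ 1` inflation does not change the L-function. -/
lemma LFunction_infl (hm : 1 ≤ m) (χ : DirichletCharacter ℂ (p ^ m)) :
    (infl p m χ).LFunction (1 / 2) = χ.LFunction (1 / 2) := by
  have h := DirichletCharacter.LFunction_changeLevel (pdvd (p := p) (m := m)) χ (s := 1 / 2)
    (Or.inr (by norm_num))
  unfold infl
  rw [h, Nat.primeFactors_pow _ (Nat.succ_ne_zero m), hp.out.primeFactors, Finset.prod_singleton]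
  have h0 : χ (p : ZMod (p ^ m)) = 0 := by
    apply MulChar.map_nonunit
    intro hu
    rw [ZMod.isUnit_iff_coprime, Nat.coprime_pow_right_iff hm, Nat.coprime_self] at hu
    exact hp.out.one_lt.ne' hu
  rw [h0]; ring

lemma isPrimitive_iff (χ : DirichletCharacter ℂ (p ^ (m + 1))) :
    χ.IsPrimitive ↔ χ ∉ (infl p m).range := by
  constructor
  · rintro h ⟨χ', rfl⟩
    rw [DirichletCharacter.isPrimitive_def] at h
    have h1 : (infl p m χ').conductor ∣ p ^ m := by
      unfold infl
      rw [DirichletCharacter.conductor_changeLevel]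
      exact χ'.conductor_dvd_level
    rw [h] at h1
    exact absurd ((Nat.pow_dvd_pow_iff_le_right hp.out.one_lt).mp h1) (by omega)
  · intro h
    rw [DirichletCharacter.isPrimitive_def]
    obtain ⟨k, hk, hkc⟩ := (Nat.dvd_prime_pow hp.out).mp χ.conductor_dvd_level
    rcases Nat.lt_or_ge k (m + 1) with hlt | hge
    · exfalso
      apply h
      have hd : χ.conductor ∣ p ^ m := by
        rw [hkc]; exact pow_dvd_pow _ (by omega)
      refine ⟨DirichletCharacter.changeLevel hd χ.primitiveCharacter, ?_⟩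
      unfold infl
      rw [← DirichletCharacter.changeLevel_trans]
      exact χ.changeLevel_primitiveCharacter
    · rw [hkc]; congr 1; omega

lemma card_range_infl :
    Nat.card (infl p m).range * p = Nat.card (DirichletCharacter ℂ (p ^ (m + 1))) ∨ m = 0 := by
  rcases Nat.eq_zero_or_pos m with h | h
  · right; exact h
  · left
    have h1 : Nat.card (infl p m).range = (p ^ m).totient := by
      rw [← Nat.card_congr (MonoidHom.ofInjective (infl_injective (p := p) (m := m))).toEquiv]
      rw [Nat.card_eq_fintype_card]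
      have := card_Xs (⊤ : Subgroup (DirichletCharacter ℂ (p ^ m)))
      have h2 := card_Xs_mul_card_Hs (⊤ : Subgroup (DirichletCharacter ℂ (p ^ m)))
      have hlt : 1 < p ^ m := Nat.one_lt_pow (by omega) hp.out.one_lt
      rw [Hs_top, Finset.card_singleton, mul_one, Xs_top, Finset.card_univ] at h2
      exact h2
    have h3 : Nat.card (DirichletCharacter ℂ (p ^ (m + 1))) = (p ^ (m + 1)).totient := by
      rw [Nat.card_eq_fintype_card]
      have h2 := card_Xs_mul_card_Hs (⊤ : Subgroup (DirichletCharacter ℂ (p ^ (m + 1))))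
      rw [Hs_top, Finset.card_singleton, mul_one, Xs_top, Finset.card_univ] at h2
      exact h2
    rw [h1, h3, Nat.totient_prime_pow_succ hp.out, Nat.totient_prime_pow hp.out h]
    obtain ⟨k, rfl⟩ : ∃ k, m = k + 1 := ⟨m - 1, by omega⟩
    simp only [Nat.add_sub_cancel]
    rw [pow_succ p k]; ring

lemma index_range_infl (hm : 1 ≤ m) : (infl p m).range.index = p := by
  have h := (card_range_infl (p := p) (m := m)).resolve_right (by omega)
  have h2 := (infl p m).range.card_mul_index
  rw [← h] at h2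
  exact Nat.eq_of_mul_eq_mul_left (Nat.card_pos) h2

/-- the characters of level `p^m` whose inflation is in `X`. -/
noncomputable def pull (X : Subgroup (DirichletCharacter ℂ (p ^ (m + 1)))) :
    Subgroup (DirichletCharacter ℂ (p ^ m)) := X.comap (infl p m)

lemma card_pull (X : Subgroup (DirichletCharacter ℂ (p ^ (m + 1)))) :
    Nat.card (pull X) = Nat.card ((infl p m).range ⊓ X : Subgroup _) := by
  have : (pull X).map (infl p m) = (infl p m).range ⊓ X := by
    unfold pull
    rw [Subgroup.map_comap_eq]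
  rw [← this]
  exact Nat.card_congr ((pull X).equivMapOfInjective _ infl_injective).toEquiv

lemma card_eq_mul_card_pull (hm : 1 ≤ m) (X : Subgroup (DirichletCharacter ℂ (p ^ (m + 1))))
    (hX : ∃ χ ∈ X, χ.IsPrimitive) : Nat.card X = p * Nat.card (pull X) := by
  have h1 : (infl p m).range.relIndex X ∣ p := by
    have h0 := Subgroup.relIndex_dvd_index_of_normal (infl p m).range X
    rwa [index_range_infl (p := p) hm] at h0
  have h2 : (infl p m).range.relIndex X ≠ 1 := by
    rw [Ne, Subgroup.relIndex_eq_one]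
    intro hle
    obtain ⟨χ, hχ, hprim⟩ := hX
    exact (isPrimitive_iff χ).mp hprim (hle hχ)
  have h3 : (infl p m).range.relIndex X = p := ((Nat.dvd_prime hp.out).mp h1).resolve_left h2
  rw [card_pull]
  have h4 := Subgroup.card_mul_index ((infl p m).range.subgroupOf X)
  rw [← Subgroup.relIndex, h3] at h4
  rw [← h4, mul_comm]
  congr 1
  have : ((infl p m).range ⊓ X : Subgroup _).subgroupOf X = (infl p m).range.subgroupOf X := by
    rw [Subgroup.inf_subgroupOf_right]
  rw [← this]
  exact Nat.card_congr (Subgroup.subgroupOfEquivOfLe inf_le_right).toEquiv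

/-- the annihilators at the two levels have the same size. -/
lemma card_Hs_pull (hm : 1 ≤ m) (X : Subgroup (DirichletCharacter ℂ (p ^ (m + 1))))
    (hX : ∃ χ ∈ X, χ.IsPrimitive) : (Hs (pull X)).card = (Hs X).card := by
  have h1 := card_Xs_mul_card_Hs X
  have h2 := card_Xs_mul_card_Hs (pull X)
  rw [card_Xs] at h1 h2
  rw [card_eq_mul_card_pull hm X hX, Nat.totient_prime_pow_succ hp.out] at h1
  rw [Nat.totient_prime_pow hp.out hm] at h2
  have h3 : p * (Nat.card (pull X) * (Hs (pull X)).card) = p ^ m * (p - 1) := by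
    rw [h2, ← mul_assoc, ← pow_succ']
    congr 2; omega
  have hpos : 0 < p * Nat.card (pull X) := Nat.mul_pos hp.out.pos Nat.card_pos
  apply Nat.eq_of_mul_eq_mul_left hpos
  rw [h1, ← h3]; ring

/-- reduction of the annihilator. -/
lemma cast_mem_Hs_pull (X : Subgroup (DirichletCharacter ℂ (p ^ (m + 1))))
    {a : ZMod (p ^ (m + 1))} (ha : a ∈ Hs X) : (ZMod.cast a : ZMod (p ^ m)) ∈ Hs (pull X) := by
  have hu := isUnit_of_mem_Hs ha
  rw [mem_Hs] at ha ⊢
  intro χ hχ
  have h1 := ha (infl p m χ) hχ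
  obtain ⟨u, rfl⟩ := hu
  unfold infl at h1
  rwa [DirichletCharacter.changeLevel_eq_cast_of_dvd] at h1

/-- The sum of the central values over the primitive characters in `X`. -/
lemma sum_primitive (hm : 1 ≤ m) (X : Subgroup (DirichletCharacter ℂ (p ^ (m + 1))))
    (hX : ∃ χ ∈ X, χ.IsPrimitive) [DecidablePred fun χ : DirichletCharacter ℂ (p ^ (m + 1)) =>
      χ.IsPrimitive] :
    ∑ χ ∈ (Xs X).filter (fun χ => χ.IsPrimitive), χ.LFunction (1 / 2) =
      ((Nat.card X / √((p ^ (m + 1) : ℕ) : ℝ) *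
        (∑ a ∈ Hs X, Z ((a.val : ℝ) / (p ^ (m + 1) : ℕ)) -
          1 / √p * ∑ b ∈ Hs (pull X), Z ((b.val : ℝ) / (p ^ m : ℕ))) : ℝ) : ℂ) := by
  classical
  have hlt : 1 < p ^ m := Nat.one_lt_pow (by omega) hp.out.one_lt
  have hlt' : 1 < p ^ (m + 1) := Nat.one_lt_pow (by omega) hp.out.one_lt
  have h1 := sum_LFunction_Xs hlt' X
  have h2 := sum_LFunction_Xs hlt (pull X)
  have h3 : ∑ χ ∈ (Xs X).filter (fun χ => ¬ χ.IsPrimitive), χ.LFunction (1 / 2) =
      ∑ χ ∈ Xs (pull X), χ.LFunction (1 / 2) := by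
    symm
    refine Finset.sum_bij (fun χ _ => infl p m χ) ?_ ?_ ?_ ?_
    · intro χ hχ
      rw [Finset.mem_filter, mem_Xs, isPrimitive_iff, not_not]
      have h5 : χ ∈ pull X := mem_Xs.mp hχ
      exact ⟨h5, ⟨χ, rfl⟩⟩
    · intro χ _ ψ _ h; exact infl_injective h
    · intro χ hχ
      rw [Finset.mem_filter, mem_Xs, isPrimitive_iff, not_not] at hχ
      obtain ⟨hX', ⟨ψ, rfl⟩⟩ := hχ
      have h5 : ψ ∈ pull X := hX'
      exact ⟨ψ, mem_Xs.mpr h5, rfl⟩
    · intro χ _
      rw [LFunction_infl hm]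
  have h4 := Finset.sum_filter_add_sum_filter_not (Xs X) (fun χ => χ.IsPrimitive)
    (fun χ => χ.LFunction (1 / 2))
  rw [h3, h1, h2] at h4
  rw [eq_sub_of_add_eq h4, ← Complex.ofReal_sub]
  congr 1
  rw [card_Xs, card_Xs, card_eq_mul_card_pull hm X hX]
  have hp0 : (0 : ℝ) < p := by exact_mod_cast hp.out.pos
  have e1 : √((p ^ (m + 1) : ℕ) : ℝ) = √((p ^ m : ℕ) : ℝ) * √p := by
    push_cast
    rw [pow_succ, Real.sqrt_mul (by positivity)]
  have e2 : √(p : ℝ) * √p = p := Real.mul_self_sqrt hp0.le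
  have e3 : 0 < √(p : ℝ) := Real.sqrt_pos.mpr hp0
  have e4 : 0 < √((p ^ m : ℕ) : ℝ) := Real.sqrt_pos.mpr (by positivity)
  rw [e1]
  push_cast
  rw [mul_sub]
  congr 1
  have : (Nat.card (pull X) : ℝ) / √((p : ℝ) ^ m) =
      (p : ℝ) * (Nat.card (pull X) : ℝ) / (√((p : ℝ) ^ m) * √p) * (1 / √p) := by
    have e4' : √((p : ℝ) ^ m) ≠ 0 := by positivity
    field_simp
    rw [sq, e2]
  rw [this]
  ring

end Pool.Agent.H14
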