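import Pool.Agent.H14.PPSmall

/-!
# Nonvanishing for characters of prime power conductor
-/

open Finset

namespace Pool.Agent.H14

section aux
variable {p : ℕ} [hp : Fact p.Prime] {m : ℕ}

lemma sqrt_pow_eq : √((p ^ m : ℕ) : ℝ) = √((p ^ (m + 1) : ℕ) : ℝ) / √p := by
  have hp0 : (0 : ℝ) < p := by exact_mod_cast hp.out.pos
  rw [eq_div_iff (Real.sqrt_pos.mpr hp0).ne', ← Real.sqrt_mul (by positivity)]
  congr 1; push_cast; ring

lemma inv_le_one_sub {n : ℕ} [NeZero n] (a : ZMod n) : (a.val : ℝ) / n ≤ 1 - 1 / n := by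
  have hn0 : (0 : ℝ) < n := Nat.cast_pos.mpr (NeZero.pos n)
  have h1 : a.val + 1 ≤ n := ZMod.val_lt a
  have h2 : (a.val : ℝ) + 1 ≤ n := by exact_mod_cast h1
  rw [div_le_iff₀ hn0]
  have : (1 - 1 / (n : ℝ)) * n = n - 1 := by field_simp
  rw [this]; linarith

end aux

/-- the case `|H| = 1`, for `p ≤ 3`. -/
lemma Dpp_ge_one {p : ℕ} [hp : Fact p.Prime] {m : ℕ} (hp3 : p ≤ 3) (hm : 1 ≤ m)
    (X : Subgroup (DirichletCharacter ℂ (p ^ (m + 1))))
    (hX : ∃ χ ∈ X, χ.IsPrimitive) (hc : (Hs X).card = 1) :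
    0.04 * √((p ^ (m + 1) : ℕ) : ℝ) ≤ Dpp X := by
  have hp2 := hp.out.two_le
  have hlt : 1 < p ^ m := Nat.one_lt_pow (by omega) hp.out.one_lt
  have hlt' : 1 < p ^ (m + 1) := Nat.one_lt_pow (by omega) hp.out.one_lt
  have h4 : 4 ≤ p ^ (m + 1) := by
    calc 4 = 2 ^ 2 := by norm_num
      _ ≤ p ^ 2 := Nat.pow_le_pow_left hp2 2
      _ ≤ p ^ (m + 1) := Nat.pow_le_pow_right hp.out.pos (by omega)
  have hp0 : (0 : ℝ) < p := by exact_mod_cast hp.out.pos
  obtain ⟨s2a, s2b⟩ := sqrt_two_bounds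
  unfold Dpp
  rw [sum_Hs_one hc (fun a => Z ((a.val : ℝ) / (p ^ (m + 1) : ℕ))),
    sum_Hs_one (by rw [card_Hs_pull hm X hX, hc]) (fun b => Z ((b.val : ℝ) / (p ^ m : ℕ))),
    val_one_div hlt, val_one_div hlt']
  have h1 := Z_inv_ge (n := p ^ (m + 1)) (N := 4) (by norm_num) (by exact_mod_cast h4)
  have a2 : √(1 + 1 / 4 : ℝ) ≤ 1.1181 := by rw [Real.sqrt_le_left (by norm_num)]; norm_num
  have a3 : 0.894 ≤ 1 / √(1 + 1 / 4 : ℝ) := le_inv_sqrt (by norm_num) (by norm_num) (by norm_num)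
  have h2 := Z_inv_le (n := p ^ m) (by omega)
  rw [sqrt_pow_eq] at h2
  set S := √((p ^ (m + 1) : ℕ) : ℝ) with hS
  set s := √(p : ℝ) with hs
  have hs0 : 0 < s := Real.sqrt_pos.mpr hp0
  have hsp : s ^ 2 = p := Real.sq_sqrt hp0.le
  have hS2 : 2 ≤ S := by
    apply Real.le_sqrt_of_sq_le
    have : ((4 : ℕ) : ℝ) ≤ ((p ^ (m + 1) : ℕ) : ℝ) := by exact_mod_cast h4
    norm_num at this ⊢; linarith
  have h3 : 1 / s * Z (1 / (p ^ m : ℕ)) ≤ 1 / s * (S / s - √2) :=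
    mul_le_mul_of_nonneg_left h2 (by positivity)
  have e : 1 / s * (S / s - √2) = S / s ^ 2 - √2 / s := by field_simp
  rw [e, hsp] at h3
  have hsle : s ≤ 1.7321 := by
    rw [hs, Real.sqrt_le_left (by norm_num)]
    have : (p : ℝ) ≤ 3 := by exact_mod_cast hp3
    linarith
  have h5 : 0.81 ≤ √2 / s := by
    rw [le_div_iff₀ hs0]; nlinarith
  have h6 : S / p ≤ S / 2 := div_le_div_of_nonneg_left (by linarith) (by norm_num)
    (by exact_mod_cast hp2)
  have h7 : 0.9999 ≤ √2 / s ∨ (3 : ℝ) ≤ p := by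
    rcases Nat.lt_or_ge p 3 with h | h
    · left
      have h8 : p = 2 := by omega
      have h9 : s = √2 := by rw [hs, h8]; norm_num
      rw [h9, div_self (by positivity)]; norm_num
    · right; exact_mod_cast h
  rcases h7 with h7 | h7
  · linarith
  · have h6 : S / p ≤ S / 3 := div_le_div_of_nonneg_left (by linarith) (by norm_num) h7
    linarith

/-- the case `|H| = 2`, given that the nontrivial element reduces to `-1`. -/
lemma Dpp_ge_two {p : ℕ} [hp : Fact p.Prime] {m : ℕ} (hp3 : p ≤ 3) (hm : 1 ≤ m)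
    (hq : 2 < p ^ m) (X : Subgroup (DirichletCharacter ℂ (p ^ (m + 1))))
    (hX : ∃ χ ∈ X, χ.IsPrimitive) (hc : (Hs X).card = 2) {a : ZMod (p ^ (m + 1))}
    (ha : a ∈ Hs X) (ha1 : a ≠ 1) (hcast : (ZMod.cast a : ZMod (p ^ m)) = -1)
    (hbig : 27 ≤ p ^ (m + 1)) :
    0.04 * √((p ^ (m + 1) : ℕ) : ℝ) ≤ Dpp X := by
  have hp2 := hp.out.two_le
  have hlt : 1 < p ^ m := by omega
  have hlt' : 1 < p ^ (m + 1) := by omega
  have hp0 : (0 : ℝ) < p := by exact_mod_cast hp.out.pos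
  obtain ⟨s2a, s2b⟩ := sqrt_two_bounds
  have hneg : (-1 : ZMod (p ^ m)) ∈ Hs (pull X) := by
    have := cast_mem_Hs_pull X ha
    rwa [hcast] at this
  unfold Dpp
  rw [sum_Hs_pair hc ha ha1 (fun a => Z ((a.val : ℝ) / (p ^ (m + 1) : ℕ))),
    sum_Hs_pair (by rw [card_Hs_pull hm X hX, hc]) hneg (neg_one_ne_one' hq)
      (fun b => Z ((b.val : ℝ) / (p ^ m : ℕ))),
    val_one_div hlt, val_one_div hlt', val_neg_one_div hlt]
  have h1 := Z_inv_ge (n := p ^ (m + 1)) (N := 27) (by norm_num) (by exact_mod_cast hbig)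
  have a2 : √(1 + 1 / 27 : ℝ) ≤ 1.0184 := by rw [Real.sqrt_le_left (by norm_num)]; norm_num
  have a3 : 0.981 ≤ 1 / √(1 + 1 / 27 : ℝ) := le_inv_sqrt (by norm_num) (by norm_num) (by norm_num)
  have h2 := Z_inv_le (n := p ^ m) (by omega)
  have h2' := Z_one_sub_inv_le (n := p ^ m) (by omega)
  have hav := val_pos_of_isUnit hlt' (isUnit_of_mem_Hs ha)
  have hav' : (0 : ℝ) < a.val := by exact_mod_cast hav
  have hq0 : (0 : ℝ) < ((p ^ (m + 1) : ℕ) : ℝ) := by positivity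
  have h10 := Z_lower (x := (a.val : ℝ) / (p ^ (m + 1) : ℕ)) (by positivity)
    (by
      have := inv_le_one_sub a
      have h0 : (0 : ℝ) < 1 / ((p ^ (m + 1) : ℕ) : ℝ) := by positivity
      linarith)
  rw [sqrt_pow_eq] at h2
  set S := √((p ^ (m + 1) : ℕ) : ℝ) with hS
  set s := √(p : ℝ) with hs
  have hs0 : 0 < s := Real.sqrt_pos.mpr hp0
  have hsp : s ^ 2 = p := Real.sq_sqrt hp0.le
  have hS2 : 5.19 ≤ S := by
    apply Real.le_sqrt_of_sq_le
    have : ((27 : ℕ) : ℝ) ≤ ((p ^ (m + 1) : ℕ) : ℝ) := by exact_mod_cast hbig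
    norm_num at this ⊢; linarith
  have h3 : 1 / s * (Z (1 / (p ^ m : ℕ)) + Z (1 - 1 / (p ^ m : ℕ))) ≤ 1 / s * (S / s - √2) :=
    mul_le_mul_of_nonneg_left (by linarith) (by positivity)
  have e : 1 / s * (S / s - √2) = S / s ^ 2 - √2 / s := by field_simp
  rw [e, hsp] at h3
  have hsle : s ≤ 1.7321 := by
    rw [hs, Real.sqrt_le_left (by norm_num)]
    have : (p : ℝ) ≤ 3 := by exact_mod_cast hp3
    linarith
  have h5 : 0.81 ≤ √2 / s := by
    rw [le_div_iff₀ hs0]; nlinarith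
  have h6 : S / p ≤ S / 2 := div_le_div_of_nonneg_left (by linarith) (by norm_num)
    (by exact_mod_cast hp2)
  have h7 : 0.9999 ≤ √2 / s ∨ (3 : ℝ) ≤ p := by
    rcases Nat.lt_or_ge p 3 with h | h
    · left
      have h8 : p = 2 := by omega
      have h9 : s = √2 := by rw [hs, h8]; norm_num
      rw [h9, div_self (by positivity)]; norm_num
    · right; exact_mod_cast h
  rcases h7 with h7 | h7
  · linarith
  · have h6 : S / p ≤ S / 3 := div_le_div_of_nonneg_left (by linarith) (by norm_num) h7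
    linarith

lemma Dpp_ge_three {m : ℕ} (hm : 1 ≤ m) (X : Subgroup (DirichletCharacter ℂ (3 ^ (m + 1))))
    (hX : ∃ χ ∈ X, χ.IsPrimitive) : 0.04 * √((3 ^ (m + 1) : ℕ) : ℝ) ≤ Dpp X := by
  haveI : Fact (Nat.Prime 3) := ⟨Nat.prime_three⟩
  have hdvd := card_Hs_dvd (p := 3) (by norm_num) hm hX
  have hd : (Hs X).card = 1 ∨ (Hs X).card = 2 := (Nat.dvd_prime Nat.prime_two).mp hdvd
  rcases hd with hc | hc
  · exact Dpp_ge_one (by norm_num) hm X hX hc
  · have hneg := neg_one_mem_of_even (p := 3) (by norm_num) (X := X) (by rw [hc])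
    have hlt : 2 < 3 ^ m := by
      calc 2 < 3 ^ 1 := by norm_num
        _ ≤ 3 ^ m := Nat.pow_le_pow_right (by norm_num) hm
    have hlt' : 2 < 3 ^ (m + 1) := hlt.trans (Nat.pow_lt_pow_right (by norm_num) (by omega))
    have hcast : (ZMod.cast (-1 : ZMod (3 ^ (m + 1))) : ZMod (3 ^ m)) = -1 := by
      have := ZMod.cast_intCast (R := ZMod (3 ^ m)) (pdvd (p := 3) (m := m)) (-1)
      simpa using this
    rcases Nat.lt_or_ge m 2 with h | h
    · have h1 : m = 1 := by omega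
      subst h1
      have hneg' : (-1 : ZMod (3 ^ 1)) ∈ Hs (pull X) := by
        have := cast_mem_Hs_pull X hneg
        rwa [hcast] at this
      unfold Dpp
      rw [sum_Hs_pair hc hneg (neg_one_ne_one' hlt')
          (fun a => Z ((a.val : ℝ) / (3 ^ (1 + 1) : ℕ))),
        sum_Hs_pair (by rw [card_Hs_pull hm X hX, hc]) hneg' (neg_one_ne_one' hlt)
          (fun b => Z ((b.val : ℝ) / (3 ^ 1 : ℕ))),
        val_one_div (by omega), val_one_div (by omega), val_neg_one_div (by omega),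
        val_neg_one_div (by omega)]
      have hs9 : √((3 ^ (1 + 1) : ℕ) : ℝ) = 3 := by
        rw [show ((3 ^ (1 + 1) : ℕ) : ℝ) = 3 ^ 2 by norm_num]
        exact Real.sqrt_sq (by norm_num)
      rw [hs9]
      have := num_nine
      norm_num at this ⊢
      linarith
    · apply Dpp_ge_two (by norm_num) hm hlt X hX hc hneg (neg_one_ne_one' hlt') hcast
      calc 27 = 3 ^ 3 := by norm_num
        _ ≤ 3 ^ (m + 1) := Nat.pow_le_pow_right (by norm_num) (by omega)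

lemma Dpp_ge_prime_two {m : ℕ} (hm : 1 ≤ m) (X : Subgroup (DirichletCharacter ℂ (2 ^ (m + 1))))
    (hX : ∃ χ ∈ X, χ.IsPrimitive) : 0.04 * √((2 ^ (m + 1) : ℕ) : ℝ) ≤ Dpp X := by
  classical
  haveI : Fact (Nat.Prime 2) := ⟨Nat.prime_two⟩
  by_cases hall : ∀ u ∈ HsG X, u = 1
  · have hc : (Hs X).card = 1 := by
      rw [Finset.card_eq_one]
      refine ⟨1, Finset.eq_singleton_iff_unique_mem.mpr ⟨one_mem_Hs X, ?_⟩⟩
      intro x hx
      obtain ⟨u, rfl⟩ := isUnit_of_mem_Hs hx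
      rw [hall u (mem_HsG.mpr hx), Units.val_one]
    exact Dpp_ge_one (by norm_num) hm X hX hc
  · push Not at hall
    obtain ⟨u, hu, hu1⟩ := hall
    obtain ⟨a, ha⟩ := exists_int_rep u
    obtain ⟨h4, h2m⟩ := cast_eq_neg_one_of_mem hm hX hu hu1 ha
    have hkey : ∀ v ∈ HsG X, v ≠ 1 → v = u⁻¹ := by
      intro v hv hv1
      obtain ⟨b, hb⟩ := exists_int_rep v
      obtain ⟨h4', _⟩ := cast_eq_neg_one_of_mem hm hX hv hv1 hb
      have h5 : v * u = 1 := by
        apply eq_one_of_one_mod_four hm hX (mul_mem hv hu) (a := b * a)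
        · rw [Int.cast_mul, ha, hb, Units.val_mul]
        · obtain ⟨k, hk⟩ := h4
          obtain ⟨l, hl⟩ := h4'
          exact ⟨4 * k * l - k - l, by
            have e1 : a = 4 * k - 1 := by linear_combination hk
            have e2 : b = 4 * l - 1 := by linear_combination hl
            rw [e1, e2]; ring⟩
      exact eq_inv_of_mul_eq_one_left h5
    have hc : (Hs X).card = 2 := by
      have hset : Hs X = {1, (u : ZMod (2 ^ (m + 1)))} := by
        apply Finset.Subset.antisymm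
        · intro x hx
          obtain ⟨v, rfl⟩ := isUnit_of_mem_Hs hx
          simp only [Finset.mem_insert, Finset.mem_singleton]
          by_cases hv : v = 1
          · left; rw [hv, Units.val_one]
          · right; rw [hkey v (mem_HsG.mpr hx) hv, ← hkey u hu hu1]
        · intro x hx
          simp only [Finset.mem_insert, Finset.mem_singleton] at hx
          rcases hx with rfl | rfl
          · exact one_mem_Hs X
          · exact mem_HsG.mp hu
      rw [hset, Finset.card_pair]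
      intro h; apply hu1; ext; rw [← h, Units.val_one]
    have huH : (u : ZMod (2 ^ (m + 1))) ∈ Hs X := mem_HsG.mp hu
    have hu1' : (u : ZMod (2 ^ (m + 1))) ≠ 1 := by
      intro h; apply hu1; ext; rw [h, Units.val_one]
    have hcast : (ZMod.cast (u : ZMod (2 ^ (m + 1))) : ZMod (2 ^ m)) = -1 := by
      rw [← ha, ZMod.cast_intCast (pdvd (p := 2) (m := m)), ← sub_eq_zero, sub_neg_eq_add]
      have : ((a + 1 : ℤ) : ZMod (2 ^ m)) = 0 := by
        rw [ZMod.intCast_zmod_eq_zero_iff_dvd]; exact_mod_cast h2m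
      simpa using this
    have hlt' : 1 < 2 ^ (m + 1) := Nat.one_lt_pow (by omega) (by norm_num)
    have hm2 : 2 ≤ m := by
      by_contra hcon
      have h1 : m = 1 := by omega
      apply hu1
      apply eq_one_of_mem_kerRed hm hX hu
      rw [mem_kerRed_iff_dvd ha, h1]
      obtain ⟨k, hk⟩ := h4
      exact ⟨2 * k - 1, by push_cast; linear_combination hk⟩
    have hlt : 2 < 2 ^ m := by
      calc 2 < 2 ^ 2 := by norm_num
        _ ≤ 2 ^ m := Nat.pow_le_pow_right (by norm_num) hm2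
    have hpos : 0 < (u : ZMod (2 ^ (m + 1))).val := val_pos_of_isUnit hlt' u.isUnit
    have hxle := inv_le_one_sub (u : ZMod (2 ^ (m + 1)))
    have hneg : (-1 : ZMod (2 ^ m)) ∈ Hs (pull X) := by
      have := cast_mem_Hs_pull X huH
      rwa [hcast] at this
    have hpair : Dpp X = (Z (1 / (2 ^ (m + 1) : ℕ)) +
        Z (((u : ZMod (2 ^ (m + 1))).val : ℝ) / (2 ^ (m + 1) : ℕ))) -
        1 / √((2 : ℕ) : ℝ) * (Z (1 / (2 ^ m : ℕ)) + Z (1 - 1 / (2 ^ m : ℕ))) := by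
      unfold Dpp
      rw [sum_Hs_pair hc huH hu1' (fun a => Z ((a.val : ℝ) / (2 ^ (m + 1) : ℕ))),
        sum_Hs_pair (by rw [card_Hs_pull hm X hX, hc]) hneg (neg_one_ne_one' hlt)
          (fun b => Z ((b.val : ℝ) / (2 ^ m : ℕ))),
        val_one_div (by omega), val_one_div (by omega), val_neg_one_div (by omega)]
    have hcases : m = 2 ∨ m = 3 ∨ 4 ≤ m := by omega
    rcases hcases with h | h | h
    · rw [hpair]
      subst h
      have hx0 : (0 : ℝ) < ((u : ZMod (2 ^ (2 + 1))).val : ℝ) / (2 ^ (2 + 1) : ℕ) := by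
        have : (0 : ℝ) < (u : ZMod (2 ^ (2 + 1))).val := by exact_mod_cast hpos
        positivity
      have h8 := num_eight hx0 (by
        refine hxle.trans ?_
        norm_num)
      have hs8 : √((2 ^ (2 + 1) : ℕ) : ℝ) ≤ 3 := by
        rw [Real.sqrt_le_left (by norm_num)]; norm_num
      have e1 : (1 : ℝ) / ((2 ^ (2 + 1) : ℕ) : ℝ) = 1 / 8 := by norm_num
      have e2 : (1 : ℝ) / ((2 ^ 2 : ℕ) : ℝ) = 1 / 4 := by norm_num
      have e3 : √((2 : ℕ) : ℝ) = √2 := by norm_num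
      rw [e1, e2, e3]
      have h9 : 0.04 * √((2 ^ (2 + 1) : ℕ) : ℝ) ≤ 0.04 * 3 :=
        mul_le_mul_of_nonneg_left hs8 (by norm_num)
      have h10 : (0.04 : ℝ) * 3 = 0.12 := by norm_num
      rw [h10] at h9
      exact h9.trans h8
    · rw [hpair]
      subst h
      have hx0 : (0 : ℝ) < ((u : ZMod (2 ^ (3 + 1))).val : ℝ) / (2 ^ (3 + 1) : ℕ) := by
        have : (0 : ℝ) < (u : ZMod (2 ^ (3 + 1))).val := by exact_mod_cast hpos
        positivity
      have h8 := num_sixteen hx0 (by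
        refine hxle.trans ?_
        norm_num)
      have hs8 : √((2 ^ (3 + 1) : ℕ) : ℝ) ≤ 4 := by
        rw [Real.sqrt_le_left (by norm_num)]; norm_num
      have e1 : (1 : ℝ) / ((2 ^ (3 + 1) : ℕ) : ℝ) = 1 / 16 := by norm_num
      have e2 : (1 : ℝ) / ((2 ^ 3 : ℕ) : ℝ) = 1 / 8 := by norm_num
      have e3 : √((2 : ℕ) : ℝ) = √2 := by norm_num
      rw [e1, e2, e3]
      linarith
    · apply Dpp_ge_two (by norm_num) hm hlt X hX hc huH hu1' hcast
      calc 27 ≤ 2 ^ 5 := by norm_num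
        _ ≤ 2 ^ (m + 1) := Nat.pow_le_pow_right (by norm_num) (by omega)

/-- lower bound for the primitive first moment, all primes. -/
lemma Dpp_ge {p : ℕ} [hp : Fact p.Prime] {m : ℕ} (hm : 1 ≤ m)
    (X : Subgroup (DirichletCharacter ℂ (p ^ (m + 1)))) (hX : ∃ χ ∈ X, χ.IsPrimitive) :
    0.04 * √((p ^ (m + 1) : ℕ) : ℝ) ≤ Dpp X := by
  have h2 := hp.out.two_le
  have h4 : p ≠ 4 := by
    rintro h
    have hpr := hp.out
    rw [h] at hpr
    exact absurd hpr (by norm_num)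
  have hcases : p = 2 ∨ p = 3 ∨ 5 ≤ p := by omega
  rcases hcases with h | h | h
  · subst h
    exact Dpp_ge_prime_two hm X hX
  · subst h
    exact Dpp_ge_three hm X hX
  · exact Dpp_ge_five h hm X hX

/-- counting version. -/
lemma count_primitive {p : ℕ} [hp : Fact p.Prime] {m : ℕ} (hm : 1 ≤ m)
    (X : Subgroup (DirichletCharacter ℂ (p ^ (m + 1)))) (hX : ∃ χ ∈ X, χ.IsPrimitive) :
    (Nat.card X : ℝ) ^ 2 ≤ 625 * (p ^ (m + 1)).totient *
      (Real.log ((p ^ (m + 1) : ℕ) : ℝ) + 3.2) *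
      (Nat.card {χ : DirichletCharacter ℂ (p ^ (m + 1)) // χ ∈ X ∧ χ.IsPrimitive ∧
        artinL χ (1 / 2) ≠ 0} : ℝ) := by
  classical
  have hn1 : 1 < p ^ (m + 1) := Nat.one_lt_pow (by omega) hp.out.one_lt
  have hn0 : (0 : ℝ) < ((p ^ (m + 1) : ℕ) : ℝ) := Nat.cast_pos.mpr (NeZero.pos _)
  have hlog : 0 ≤ Real.log ((p ^ (m + 1) : ℕ) : ℝ) := Real.log_nonneg (by exact_mod_cast hn1.le)
  have hsum := sum_primitive hm X hX
  have hD := Dpp_ge hm X hX
  unfold Dpp at hD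
  set R : ℝ := Nat.card X / √((p ^ (m + 1) : ℕ) : ℝ) *
    (∑ a ∈ Hs X, Z ((a.val : ℝ) / (p ^ (m + 1) : ℕ)) -
      1 / √p * ∑ b ∈ Hs (pull X), Z ((b.val : ℝ) / (p ^ m : ℕ))) with hR
  have hs0 : 0 < √((p ^ (m + 1) : ℕ) : ℝ) := Real.sqrt_pos.mpr hn0
  have hRge : 0.04 * (Nat.card X : ℝ) ≤ R := by
    have h1 := mul_le_mul_of_nonneg_left hD
      (show 0 ≤ (Nat.card X : ℝ) / √((p ^ (m + 1) : ℕ) : ℝ) by positivity)
    have h2 : (Nat.card X : ℝ) / √((p ^ (m + 1) : ℕ) : ℝ) *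
        (0.04 * √((p ^ (m + 1) : ℕ) : ℝ)) = 0.04 * (Nat.card X : ℝ) := by
      field_simp
    rw [h2] at h1
    exact h1
  have hCS := sq_norm_sum_le ((Xs X).filter (fun χ => χ.IsPrimitive))
    (fun χ : DirichletCharacter ℂ (p ^ (m + 1)) => χ.LFunction (1 / 2))
  rw [hsum, Complex.norm_real, Real.norm_eq_abs, sq_abs] at hCS
  have hM : ∑ χ ∈ (Xs X).filter (fun χ => χ.IsPrimitive), ‖χ.LFunction (1 / 2)‖ ^ 2 ≤
      (p ^ (m + 1)).totient * (Real.log ((p ^ (m + 1) : ℕ) : ℝ) + 3.2) := by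
    refine le_trans ?_ (second_moment hn1)
    exact Finset.sum_le_sum_of_subset_of_nonneg (Finset.subset_univ _)
      (fun _ _ _ => by positivity)
  set N0 := (((Xs X).filter (fun χ => χ.IsPrimitive)).filter
    fun χ : DirichletCharacter ℂ (p ^ (m + 1)) => χ.LFunction (1 / 2) ≠ 0).card with hN0
  have hN : N0 ≤ Nat.card {χ : DirichletCharacter ℂ (p ^ (m + 1)) // χ ∈ X ∧ χ.IsPrimitive ∧
      artinL χ (1 / 2) ≠ 0} := by
    rw [Nat.card_eq_fintype_card, Fintype.card_subtype]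
    apply Finset.card_le_card
    intro χ hχ
    simp only [Finset.mem_filter, Finset.mem_univ, true_and, mem_Xs] at hχ ⊢
    exact ⟨hχ.1.1, hχ.1.2, artinL_ne_zero_of_LFunction_ne_zero (by norm_num) hχ.2⟩
  have hN' : (N0 : ℝ) ≤ (Nat.card {χ : DirichletCharacter ℂ (p ^ (m + 1)) // χ ∈ X ∧
      χ.IsPrimitive ∧ artinL χ (1 / 2) ≠ 0} : ℝ) := by exact_mod_cast hN
  have h5 : (0.04 * (Nat.card X : ℝ)) ^ 2 ≤
      N0 * ((p ^ (m + 1)).totient * (Real.log ((p ^ (m + 1) : ℕ) : ℝ) + 3.2)) := by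
    calc (0.04 * (Nat.card X : ℝ)) ^ 2 ≤ R ^ 2 := pow_le_pow_left₀ (by positivity) hRge 2
      _ ≤ _ := hCS
      _ ≤ _ := mul_le_mul_of_nonneg_left hM (by positivity)
  have h6 : (N0 : ℝ) * ((p ^ (m + 1)).totient * (Real.log ((p ^ (m + 1) : ℕ) : ℝ) + 3.2)) ≤
      (Nat.card {χ : DirichletCharacter ℂ (p ^ (m + 1)) // χ ∈ X ∧ χ.IsPrimitive ∧
      artinL χ (1 / 2) ≠ 0} : ℝ) *
      ((p ^ (m + 1)).totient * (Real.log ((p ^ (m + 1) : ℕ) : ℝ) + 3.2)) :=
    mul_le_mul_of_nonneg_right hN' (by positivity)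
  nlinarith

end Pool.Agent.H14
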