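import Pool.Agent.H14.PPFive

/-!
# The cases `p = 2` and `p = 3`
-/

open Finset

namespace Pool.Agent.H14

lemma zl_le_Z_of_le {x δ : ℝ} (hx : 0 < x) (h : x ≤ δ) : zl δ ≤ Z x := by
  refine le_trans ?_ ((zl_ge hx h).trans (zl_le_Z hx))
  unfold zl
  have : 1 / √δ ≤ 1 / √x := one_div_le_one_div_of_le (Real.sqrt_pos.mpr hx) (Real.sqrt_le_sqrt h)
  linarith

lemma Z_le_W {x : ℝ} (hx : 0 < x) :
    Z x ≤ 1 / √x - 2 * √(1 + x) + (2 - √2) * (1 / √(1 + x)) := by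
  rw [Z_eq_W hx]; linarith [W_upper hx]

/-- numeric upper bound for `1/√x`. -/
lemma inv_sqrt_le {x c : ℝ} (hc : 0 < c) (h : 1 ≤ c ^ 2 * x) : 1 / √x ≤ c := by
  have hx : 0 < x := by
    by_contra hcon
    have : c ^ 2 * x ≤ 0 := mul_nonpos_of_nonneg_of_nonpos (by positivity) (not_lt.mp hcon)
    linarith
  rw [div_le_iff₀ (Real.sqrt_pos.mpr hx), mul_comm, ← div_le_iff₀ hc]
  apply Real.le_sqrt_of_sq_le
  rw [div_pow, div_le_iff₀ (by positivity)]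
  nlinarith

/-- numeric lower bound for `1/√x`. -/
lemma le_inv_sqrt {x c : ℝ} (hx : 0 < x) (hc : 0 < c) (h : c ^ 2 * x ≤ 1) : c ≤ 1 / √x := by
  rw [le_div_iff₀ (Real.sqrt_pos.mpr hx), mul_comm, ← le_div_iff₀ hc]
  rw [Real.sqrt_le_left (by positivity)]
  rw [div_pow, le_div_iff₀ (by positivity)]
  nlinarith

section
variable {n : ℕ} [NeZero n]

lemma sum_Hs_one {X : Subgroup (DirichletCharacter ℂ n)} (h : (Hs X).card = 1) (f : ZMod n → ℝ) :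
    ∑ a ∈ Hs X, f a = f 1 := by
  obtain ⟨a, ha⟩ := Finset.card_eq_one.mp h
  have := one_mem_Hs X
  rw [ha, Finset.mem_singleton] at this
  rw [ha, Finset.sum_singleton, ← this]

lemma sum_Hs_pair {X : Subgroup (DirichletCharacter ℂ n)} (h : (Hs X).card = 2) {b : ZMod n}
    (hb : b ∈ Hs X) (hb1 : b ≠ 1) (f : ZMod n → ℝ) :
    ∑ a ∈ Hs X, f a = f 1 + f b := by
  have h1 : ({1, b} : Finset (ZMod n)) = Hs X := by
    apply Finset.eq_of_subset_of_card_le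
    · intro x hx
      simp only [Finset.mem_insert, Finset.mem_singleton] at hx
      rcases hx with rfl | rfl
      · exact one_mem_Hs X
      · exact hb
    · rw [h, Finset.card_pair (Ne.symm hb1)]
  rw [← h1, Finset.sum_pair (Ne.symm hb1)]

omit [NeZero n] in
lemma val_one_div (hn : 1 < n) : (((1 : ZMod n).val : ℕ) : ℝ) / n = 1 / n := by
  have : Fact (1 < n) := ⟨hn⟩
  rw [ZMod.val_one]; simp

lemma val_neg_one_div (hn : 1 < n) : (((-1 : ZMod n).val : ℕ) : ℝ) / n = 1 - 1 / n := by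
  rw [val_neg_div hn isUnit_one, val_one_div hn]

omit [NeZero n] in
lemma neg_one_ne_one' (hn : 2 < n) : (-1 : ZMod n) ≠ 1 := by
  intro h
  have h2 : (2 : ZMod n) = 0 := by
    have : (1 : ZMod n) + 1 = 0 := by nth_rewrite 1 [← h]; simp
    rw [← this]; norm_num
  have h3 : ((2 : ℕ) : ZMod n) = 0 := by exact_mod_cast h2
  rw [ZMod.natCast_eq_zero_iff] at h3
  exact absurd (Nat.le_of_dvd (by norm_num) h3) (by omega)

omit [NeZero n] in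
/-- upper bound `Z(1/n) ≤ √n - √2`. -/
lemma Z_inv_le (hn : 0 < n) : Z (1 / n) ≤ √n - √2 := by
  have hn0 : (0 : ℝ) < n := by exact_mod_cast hn
  have h := Z_upper (x := 1 / (n : ℝ)) (by positivity)
  have e1 : 1 / √(1 / (n : ℝ)) = √n := by
    rw [Real.sqrt_div (by norm_num), Real.sqrt_one, one_div_one_div]
  rwa [e1] at h

omit [NeZero n] in
lemma Z_one_sub_inv_le (hn : 2 ≤ n) : Z (1 - 1 / n) ≤ 0 := by
  have hn0 : (2 : ℝ) ≤ n := by exact_mod_cast hn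
  have h2 : (1 : ℝ) / n ≤ 1 / 2 := one_div_le_one_div_of_le (by norm_num) hn0
  have h := Z_upper (x := 1 - 1 / (n : ℝ)) (by linarith)
  have h3 : 1 / √(1 - 1 / (n : ℝ)) ≤ √2 := by
    apply inv_sqrt_le (by positivity)
    rw [Real.sq_sqrt (by norm_num)]; linarith
  linarith

end

lemma num_nine : 0.12 ≤ (Z (1 / 9) + Z (1 - 1 / 9)) - 1 / √3 * (Z (1 / 3) + Z (1 - 1 / 3)) := by
  obtain ⟨s2a, s2b⟩ := sqrt_two_bounds
  have h1 := zl_le_Z (x := 1 / 9) (by norm_num)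
  have h2 := zl_le_Z (x := 1 - 1 / 9) (by norm_num)
  have h3 := Z_le_W (x := 1 / 3) (by norm_num)
  have h4 := Z_le_W (x := 1 - 1 / 3) (by norm_num)
  unfold zl at h1 h2
  have a1 : 3 ≤ 1 / √(1 / 9 : ℝ) := le_inv_sqrt (by norm_num) (by norm_num) (by norm_num)
  have a2 : √(1 + 1 / 9 : ℝ) ≤ 1.0542 := by rw [Real.sqrt_le_left (by norm_num)]; norm_num
  have a3 : 0.948 ≤ 1 / √(1 + 1 / 9 : ℝ) := le_inv_sqrt (by norm_num) (by norm_num) (by norm_num)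
  have a4 : 1.06 ≤ 1 / √(1 - 1 / 9 : ℝ) := le_inv_sqrt (by norm_num) (by norm_num) (by norm_num)
  have a5 : √(1 + (1 - 1 / 9) : ℝ) ≤ 1.3744 := by
    rw [Real.sqrt_le_left (by norm_num)]; norm_num
  have a6 : 0.727 ≤ 1 / √(1 + (1 - 1 / 9) : ℝ) :=
    le_inv_sqrt (by norm_num) (by norm_num) (by norm_num)
  have b1 : 1 / √(1 / 3 : ℝ) ≤ 1.733 := inv_sqrt_le (by norm_num) (by norm_num)
  have b2 : 1.154 ≤ √(1 + 1 / 3 : ℝ) := Real.le_sqrt_of_sq_le (by norm_num)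
  have b3 : 1 / √(1 + 1 / 3 : ℝ) ≤ 0.867 := inv_sqrt_le (by norm_num) (by norm_num)
  have b4 : 1 / √(1 - 1 / 3 : ℝ) ≤ 1.225 := inv_sqrt_le (by norm_num) (by norm_num)
  have b5 : 1.29 ≤ √(1 + (1 - 1 / 3) : ℝ) := Real.le_sqrt_of_sq_le (by norm_num)
  have b6 : 1 / √(1 + (1 - 1 / 3) : ℝ) ≤ 0.775 := inv_sqrt_le (by norm_num) (by norm_num)
  have c1 : (2 - √2) * (1 / √(1 + 1 / 3 : ℝ)) ≤ 0.5858 * 0.867 :=
    mul_le_mul (by linarith) b3 (by positivity) (by norm_num)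
  have c2 : (2 - √2) * (1 / √(1 + (1 - 1 / 3) : ℝ)) ≤ 0.5858 * 0.775 :=
    mul_le_mul (by linarith) b6 (by positivity) (by norm_num)
  have d1 : Z (1 / 3) + Z (1 - 1 / 3) ≤ -0.6 := by linarith
  have d2 : 0.577 ≤ 1 / √(3 : ℝ) := le_inv_sqrt (by norm_num) (by norm_num) (by norm_num)
  nlinarith

lemma num_eight {x : ℝ} (hx : 0 < x) (hx1 : x ≤ 7 / 8) :
    0.12 ≤ (Z (1 / 8) + Z x) - 1 / √2 * (Z (1 / 4) + Z (1 - 1 / 4)) := by
  obtain ⟨s2a, s2b⟩ := sqrt_two_bounds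
  have h1 := zl_le_Z (x := 1 / 8) (by norm_num)
  have h2 := zl_le_Z_of_le hx hx1
  have h3 := Z_le_W (x := 1 / 4) (by norm_num)
  have h4 := Z_le_W (x := 1 - 1 / 4) (by norm_num)
  unfold zl at h1 h2
  have a1 : 2.828 ≤ 1 / √(1 / 8 : ℝ) := le_inv_sqrt (by norm_num) (by norm_num) (by norm_num)
  have a2 : √(1 + 1 / 8 : ℝ) ≤ 1.061 := by rw [Real.sqrt_le_left (by norm_num)]; norm_num
  have a3 : 0.942 ≤ 1 / √(1 + 1 / 8 : ℝ) := le_inv_sqrt (by norm_num) (by norm_num) (by norm_num)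
  have a4 : 1.069 ≤ 1 / √(7 / 8 : ℝ) := le_inv_sqrt (by norm_num) (by norm_num) (by norm_num)
  have a5 : √(1 + 7 / 8 : ℝ) ≤ 1.3694 := by
    rw [Real.sqrt_le_left (by norm_num)]; norm_num
  have a6 : 0.73 ≤ 1 / √(1 + 7 / 8 : ℝ) :=
    le_inv_sqrt (by norm_num) (by norm_num) (by norm_num)
  have b1 : 1 / √(1 / 4 : ℝ) ≤ 2 := inv_sqrt_le (by norm_num) (by norm_num)
  have b2 : 1.118 ≤ √(1 + 1 / 4 : ℝ) := Real.le_sqrt_of_sq_le (by norm_num)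
  have b3 : 1 / √(1 + 1 / 4 : ℝ) ≤ 0.895 := inv_sqrt_le (by norm_num) (by norm_num)
  have b4 : 1 / √(1 - 1 / 4 : ℝ) ≤ 1.155 := inv_sqrt_le (by norm_num) (by norm_num)
  have b5 : 1.3228 ≤ √(1 + (1 - 1 / 4) : ℝ) := Real.le_sqrt_of_sq_le (by norm_num)
  have b6 : 1 / √(1 + (1 - 1 / 4) : ℝ) ≤ 0.756 := inv_sqrt_le (by norm_num) (by norm_num)
  have c1 : (2 - √2) * (1 / √(1 + 1 / 4 : ℝ)) ≤ 0.5858 * 0.895 :=
    mul_le_mul (by linarith) b3 (by positivity) (by norm_num)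
  have c2 : (2 - √2) * (1 / √(1 + (1 - 1 / 4) : ℝ)) ≤ 0.5858 * 0.756 :=
    mul_le_mul (by linarith) b6 (by positivity) (by norm_num)
  have d1 : Z (1 / 4) + Z (1 - 1 / 4) ≤ -0.7 := by linarith
  have d2 : 0.7 ≤ 1 / √(2 : ℝ) := le_inv_sqrt (by norm_num) (by norm_num) (by norm_num)
  nlinarith

lemma num_sixteen {x : ℝ} (hx : 0 < x) (hx1 : x ≤ 15 / 16) :
    0.16 ≤ (Z (1 / 16) + Z x) - 1 / √2 * (Z (1 / 8) + Z (1 - 1 / 8)) := by
  obtain ⟨s2a, s2b⟩ := sqrt_two_bounds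
  have h1 := zl_le_Z (x := 1 / 16) (by norm_num)
  have h2 := zl_le_Z_of_le hx hx1
  have h3 := Z_upper (x := 1 / 8) (by norm_num)
  have h4 := Z_upper (x := 1 - 1 / 8) (by norm_num)
  unfold zl at h1 h2
  have a1 : 4 ≤ 1 / √(1 / 16 : ℝ) := le_inv_sqrt (by norm_num) (by norm_num) (by norm_num)
  have a2 : √(1 + 1 / 16 : ℝ) ≤ 1.031 := by rw [Real.sqrt_le_left (by norm_num)]; norm_num
  have a3 : 0.97 ≤ 1 / √(1 + 1 / 16 : ℝ) := le_inv_sqrt (by norm_num) (by norm_num) (by norm_num)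
  have a4 : 1.032 ≤ 1 / √(15 / 16 : ℝ) := le_inv_sqrt (by norm_num) (by norm_num) (by norm_num)
  have a5 : √(1 + 15 / 16 : ℝ) ≤ 1.392 := by
    rw [Real.sqrt_le_left (by norm_num)]; norm_num
  have a6 : 0.718 ≤ 1 / √(1 + 15 / 16 : ℝ) :=
    le_inv_sqrt (by norm_num) (by norm_num) (by norm_num)
  have b1 : 1 / √(1 / 8 : ℝ) ≤ 2.829 := inv_sqrt_le (by norm_num) (by norm_num)
  have b4 : 1 / √(1 - 1 / 8 : ℝ) ≤ 1.07 := inv_sqrt_le (by norm_num) (by norm_num)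
  have d1 : Z (1 / 8) + Z (1 - 1 / 8) ≤ 1.071 := by linarith
  have d2 : 1 / √(2 : ℝ) ≤ 0.708 := inv_sqrt_le (by norm_num) (by norm_num)
  have d3 : 0 < 1 / √(2 : ℝ) := by positivity
  have d4 : 1 / √(2 : ℝ) * (Z (1 / 8) + Z (1 - 1 / 8)) ≤ 1 / √(2 : ℝ) * 1.071 :=
    mul_le_mul_of_nonneg_left d1 d3.le
  nlinarith

end Pool.Agent.H14
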