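import Pool.Agent.H14.PPGroup

/-!
# Small torsion in the units modulo a prime power
-/

open Finset

namespace Pool.Agent.H14

variable {p : ℕ} [hp : Fact p.Prime] {m : ℕ}

/-- integer representative. -/
lemma exists_int_rep {n : ℕ} [NeZero n] (u : (ZMod n)ˣ) :
    ∃ a : ℤ, ((a : ℤ) : ZMod n) = (u : ZMod n) :=
  ⟨((u : ZMod n).val : ℤ), by rw [Int.cast_natCast, ZMod.natCast_zmod_val]⟩

lemma mem_kerRed_iff_dvd {u : (ZMod (p ^ (m + 1)))ˣ} {a : ℤ}
    (ha : ((a : ℤ) : ZMod (p ^ (m + 1))) = u) :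
    u ∈ kerRed p m ↔ ((p : ℤ) ^ m) ∣ a - 1 := by
  rw [mem_kerRed, ← ha, ZMod.cast_intCast (pow_dvd_pow p (Nat.le_succ m))]
  rw [← sub_eq_zero, ← Int.cast_one, ← Int.cast_sub, ZMod.intCast_zmod_eq_zero_iff_dvd]
  push_cast
  rfl

lemma mem_kerRed_of_pow_prime (hp2 : p ≠ 2) {u : (ZMod (p ^ (m + 1)))ˣ} (hu : u ^ p = 1) :
    u ∈ kerRed p m := by
  obtain ⟨a, ha⟩ := exists_int_rep u
  rw [mem_kerRed_iff_dvd ha]
  have hodd : Odd p := hp.out.odd_of_ne_two hp2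
  have h1 : ((p : ℤ) ^ (m + 1)) ∣ a ^ p - 1 := by
    have h2 : ((a ^ p - 1 : ℤ) : ZMod (p ^ (m + 1))) = 0 := by
      push_cast
      rw [ha, ← Units.val_pow_eq_pow_val, hu, Units.val_one, sub_self]
    rw [ZMod.intCast_zmod_eq_zero_iff_dvd] at h2
    exact_mod_cast h2
  have hpa : (p : ℤ) ∣ a ^ p - 1 := (dvd_pow_self _ (Nat.succ_ne_zero m)).trans h1
  have hp1 : (p : ℤ) ∣ a - 1 := by
    rw [← ZMod.intCast_zmod_eq_zero_iff_dvd] at hpa ⊢
    push_cast at hpa ⊢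
    rwa [ZMod.pow_card] at hpa
  have hna : ¬ (p : ℤ) ∣ a := by
    intro h
    have : (p : ℤ) ∣ 1 := by
      have := dvd_sub h hp1
      simpa using this
    exact (Nat.prime_iff_prime_int.mp hp.out).not_dvd_one this
  have h3 := Int.emultiplicity_pow_sub_pow hp.out hodd (x := a) (y := 1) hp1 hna p
  rw [one_pow] at h3
  have h4 : ((m + 1 : ℕ) : ℕ∞) ≤ emultiplicity (p : ℤ) (a ^ p - 1) :=
    le_emultiplicity_of_pow_dvd h1
  have h5 : emultiplicity p p = 1 := by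
    have hf : FiniteMultiplicity p p := Nat.finiteMultiplicity_iff.mpr ⟨hp.out.ne_one, hp.out.pos⟩
    rw [hf.emultiplicity_self]
  rw [h3, h5] at h4
  apply pow_dvd_of_le_emultiplicity
  push_cast at h4
  exact (ENat.add_le_add_iff_right (by simp)).mp h4

lemma eq_one_or_neg_one_of_sq (hp2 : p ≠ 2) {u : (ZMod (p ^ (m + 1)))ˣ} (hu : u ^ 2 = 1) :
    u = 1 ∨ u = -1 := by
  obtain ⟨a, ha⟩ := exists_int_rep u
  have hprime : Prime (p : ℤ) := Nat.prime_iff_prime_int.mp hp.out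
  have h1 : ((p : ℤ) ^ (m + 1)) ∣ (a - 1) * (a + 1) := by
    have h2 : (((a - 1) * (a + 1) : ℤ) : ZMod (p ^ (m + 1))) = 0 := by
      push_cast
      rw [ha]
      have : (u : ZMod (p ^ (m + 1))) ^ 2 = 1 := by
        rw [← Units.val_pow_eq_pow_val, hu, Units.val_one]
      linear_combination this
    rw [ZMod.intCast_zmod_eq_zero_iff_dvd] at h2
    exact_mod_cast h2
  have hn : ¬ ((p : ℤ) ∣ a - 1 ∧ (p : ℤ) ∣ a + 1) := by
    rintro ⟨h2, h3⟩
    have h4 : (p : ℤ) ∣ 2 := by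
      have := dvd_sub h3 h2
      have e : (a + 1) - (a - 1) = 2 := by ring
      rwa [e] at this
    have h5 : p ∣ 2 := by exact_mod_cast h4
    exact hp2 ((Nat.prime_dvd_prime_iff_eq hp.out Nat.prime_two).mp h5)
  rcases (not_and_or.mp hn) with h | h
  · right
    have h6 : ((p : ℤ) ^ (m + 1)) ∣ a + 1 :=
      (IsCoprime.pow_left ((hprime.coprime_iff_not_dvd).mpr h)).dvd_of_dvd_mul_left h1
    ext
    rw [Units.val_neg, Units.val_one, ← ha, ← sub_eq_zero, sub_neg_eq_add]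
    have : ((a + 1 : ℤ) : ZMod (p ^ (m + 1))) = 0 := by
      rw [ZMod.intCast_zmod_eq_zero_iff_dvd]; exact_mod_cast h6
    simpa using this
  · left
    have h6 : ((p : ℤ) ^ (m + 1)) ∣ a - 1 :=
      (IsCoprime.pow_left ((hprime.coprime_iff_not_dvd).mpr h)).dvd_of_dvd_mul_right h1
    ext
    rw [Units.val_one, ← ha, ← sub_eq_zero]
    have : ((a - 1 : ℤ) : ZMod (p ^ (m + 1))) = 0 := by
      rw [ZMod.intCast_zmod_eq_zero_iff_dvd]; exact_mod_cast h6
    simpa using this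

/-- for odd `p` the annihilator has order dividing `p - 1`. -/
lemma card_Hs_dvd (hp2 : p ≠ 2) (hm : 1 ≤ m) {X : Subgroup (DirichletCharacter ℂ (p ^ (m + 1)))}
    (hX : ∃ χ ∈ X, χ.IsPrimitive) : (Hs X).card ∣ p - 1 := by
  rw [← card_HsG]
  have hcop : Nat.Coprime (Nat.card (HsG X)) p := by
    rw [Nat.coprime_comm, hp.out.coprime_iff_not_dvd]
    intro hdvd
    obtain ⟨x, hx⟩ := exists_prime_orderOf_dvd_card' (G := HsG X) p hdvd
    have h1 : (x : (ZMod (p ^ (m + 1)))ˣ) ^ p = 1 := by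
      have h0 := pow_orderOf_eq_one x
      rw [hx] at h0
      rw [← Subgroup.coe_pow, h0]; rfl
    have h2 := eq_one_of_mem_kerRed hm hX x.2 (mem_kerRed_of_pow_prime hp2 h1)
    have h3 : x = 1 := by ext; simpa using congrArg Units.val h2
    rw [h3, orderOf_one] at hx
    exact hp.out.one_lt.ne hx
  have hdvd : Nat.card (HsG X) ∣ p ^ m * (p - 1) := by
    rw [← Nat.totient_prime_pow_succ hp.out, ← ZMod.card_units_eq_totient,
      ← Nat.card_eq_fintype_card]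
    exact Subgroup.card_subgroup_dvd_card _
  exact (Nat.Coprime.pow_right m hcop).dvd_of_dvd_mul_left hdvd

lemma neg_one_mem_of_even (hp2 : p ≠ 2) {X : Subgroup (DirichletCharacter ℂ (p ^ (m + 1)))}
    (h : 2 ∣ (Hs X).card) : (-1 : ZMod (p ^ (m + 1))) ∈ Hs X := by
  rw [← card_HsG] at h
  haveI : Fact (Nat.Prime 2) := ⟨Nat.prime_two⟩
  obtain ⟨x, hx⟩ := exists_prime_orderOf_dvd_card' (G := HsG X) 2 h
  have h1 : (x : (ZMod (p ^ (m + 1)))ˣ) ^ 2 = 1 := by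
    have h0 := pow_orderOf_eq_one x
    rw [hx] at h0
    rw [← Subgroup.coe_pow, h0]; rfl
  rcases eq_one_or_neg_one_of_sq hp2 h1 with h2 | h2
  · exfalso
    have h3 : x = 1 := by ext; simpa using congrArg Units.val h2
    rw [h3, orderOf_one] at hx
    omega
  · have := mem_HsG.mp x.2
    rw [h2] at this
    simpa using this

/-- for odd `p` and `-1 ∉ H`, `2|H| ≤ p - 1`. -/
lemma two_mul_card_Hs_le (hp2 : p ≠ 2) (hm : 1 ≤ m)
    {X : Subgroup (DirichletCharacter ℂ (p ^ (m + 1)))}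
    (hX : ∃ χ ∈ X, χ.IsPrimitive) (hneg : (-1 : ZMod (p ^ (m + 1))) ∉ Hs X) :
    2 * (Hs X).card ≤ p - 1 := by
  obtain ⟨k, hk⟩ := card_Hs_dvd hp2 hm hX
  have hodd : ¬ 2 ∣ (Hs X).card := fun h => hneg (neg_one_mem_of_even hp2 h)
  have hp1 : 2 ∣ p - 1 := by
    have := hp.out.odd_of_ne_two hp2
    obtain ⟨j, hj⟩ := this
    exact ⟨j, by omega⟩
  have h2k : 2 ∣ k := by
    rw [hk] at hp1
    exact (Nat.prime_two.dvd_mul.mp hp1).resolve_left hodd
  obtain ⟨j, rfl⟩ := h2k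
  have hj : 1 ≤ j := by
    rcases Nat.eq_zero_or_pos j with h | h
    · exfalso
      rw [h] at hk
      have := hp.out.one_lt
      simp at hk; omega
    · exact h
  rw [hk]
  nlinarith

/-! ### The prime 2 -/

/-- for `p = 2`: an element of order two which is `1 mod 4` lies in the kernel of reduction. -/
lemma mem_kerRed_two {u : (ZMod (2 ^ (m + 1)))ˣ} (hu : u ^ 2 = 1) {a : ℤ}
    (ha : ((a : ℤ) : ZMod (2 ^ (m + 1))) = u) (h4 : (4 : ℤ) ∣ a - 1) : u ∈ kerRed 2 m := by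
  haveI : Fact (Nat.Prime 2) := ⟨Nat.prime_two⟩
  rw [mem_kerRed_iff_dvd ha]
  have h1 : ((2 : ℤ) ^ (m + 1)) ∣ (a - 1) * (a + 1) := by
    have h2 : (((a - 1) * (a + 1) : ℤ) : ZMod (2 ^ (m + 1))) = 0 := by
      push_cast
      rw [ha]
      have : (u : ZMod (2 ^ (m + 1))) ^ 2 = 1 := by
        rw [← Units.val_pow_eq_pow_val, hu, Units.val_one]
      linear_combination this
    rw [ZMod.intCast_zmod_eq_zero_iff_dvd] at h2
    exact_mod_cast h2
  obtain ⟨k, hk⟩ := h4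
  have e : a + 1 = 2 * (2 * k + 1) := by linear_combination hk
  rw [e, show (a - 1) * (2 * (2 * k + 1)) = 2 * ((a - 1) * (2 * k + 1)) by ring, pow_succ',
    mul_dvd_mul_iff_left (by norm_num)] at h1
  have hc : IsCoprime ((2 : ℤ) ^ m) (2 * k + 1) := by
    apply IsCoprime.pow_left
    exact ⟨-k, 1, by ring⟩
  have := hc.dvd_of_dvd_mul_right h1
  exact_mod_cast this

/-- for `p = 2`: an element of order two which is `3 mod 4` reduces to `-1`. -/
lemma cast_eq_neg_one_two {u : (ZMod (2 ^ (m + 1)))ˣ} (hu : u ^ 2 = 1) {a : ℤ}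
    (ha : ((a : ℤ) : ZMod (2 ^ (m + 1))) = u) (h4 : (4 : ℤ) ∣ a + 1) : ((2 : ℤ) ^ m) ∣ a + 1 := by
  have h1 : ((2 : ℤ) ^ (m + 1)) ∣ (a - 1) * (a + 1) := by
    have h2 : (((a - 1) * (a + 1) : ℤ) : ZMod (2 ^ (m + 1))) = 0 := by
      push_cast
      rw [ha]
      have : (u : ZMod (2 ^ (m + 1))) ^ 2 = 1 := by
        rw [← Units.val_pow_eq_pow_val, hu, Units.val_one]
      linear_combination this
    rw [ZMod.intCast_zmod_eq_zero_iff_dvd] at h2
    exact_mod_cast h2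
  obtain ⟨k, hk⟩ := h4
  have e : a - 1 = 2 * (2 * k - 1) := by linear_combination hk
  rw [e, show (2 * (2 * k - 1)) * (a + 1) = 2 * ((2 * k - 1) * (a + 1)) by ring, pow_succ',
    mul_dvd_mul_iff_left (by norm_num)] at h1
  have hc : IsCoprime ((2 : ℤ) ^ m) (2 * k - 1) := by
    apply IsCoprime.pow_left
    exact ⟨k, -1, by ring⟩
  exact hc.dvd_of_dvd_mul_left h1

/-- for `p = 2`, `u ∈ H` with `u ≡ 1 mod 4` is trivial. -/
lemma eq_one_of_one_mod_four (hm : 1 ≤ m) {X : Subgroup (DirichletCharacter ℂ (2 ^ (m + 1)))}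
    (hX : ∃ χ ∈ X, χ.IsPrimitive) {u : (ZMod (2 ^ (m + 1)))ˣ} (hu : u ∈ HsG X) {a : ℤ}
    (ha : ((a : ℤ) : ZMod (2 ^ (m + 1))) = u) (h4 : (4 : ℤ) ∣ a - 1) : u = 1 := by
  haveI : Fact (Nat.Prime 2) := ⟨Nat.prime_two⟩
  by_contra hne
  -- the order of `u` is even
  have hcard : Nat.card (ZMod (2 ^ (m + 1)))ˣ = 2 ^ m := by
    rw [Nat.card_eq_fintype_card, ZMod.card_units_eq_totient,
      Nat.totient_prime_pow_succ Nat.prime_two]; simp
  have hord : orderOf u ∣ 2 ^ m := hcard ▸ orderOf_dvd_natCard u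
  obtain ⟨k, _, hk⟩ := (Nat.dvd_prime_pow Nat.prime_two).mp hord
  have hk1 : k ≠ 0 := by
    rintro rfl
    rw [pow_zero, orderOf_eq_one_iff] at hk
    exact hne hk
  obtain ⟨j, rfl⟩ : ∃ j, k = j + 1 := ⟨k - 1, by omega⟩
  set v := u ^ (2 ^ j) with hv
  have hv2 : v ^ 2 = 1 := by
    rw [hv, ← pow_mul, ← pow_succ, ← hk, pow_orderOf_eq_one]
  have hv1 : v ≠ 1 := by
    intro h
    have := orderOf_dvd_of_pow_eq_one h
    rw [hk] at this
    exact absurd (Nat.le_of_dvd (by positivity) this)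
      (not_le.mpr (Nat.pow_lt_pow_right (by norm_num) (by omega)))
  have hva : (((a ^ (2 ^ j) : ℤ)) : ZMod (2 ^ (m + 1))) = v := by
    rw [Int.cast_pow, ha, hv, Units.val_pow_eq_pow_val]
  have h4' : (4 : ℤ) ∣ a ^ (2 ^ j) - 1 := by
    have := (sub_dvd_pow_sub_pow a 1 (2 ^ j))
    rw [one_pow] at this
    exact h4.trans this
  exact hv1 (eq_one_of_mem_kerRed hm hX (pow_mem hu _) (mem_kerRed_two hv2 hva h4'))

/-- for `p = 2`, every `u ∈ H`, `u ≠ 1`, reduces to `-1` modulo `2^m`. -/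
lemma cast_eq_neg_one_of_mem (hm : 1 ≤ m) {X : Subgroup (DirichletCharacter ℂ (2 ^ (m + 1)))}
    (hX : ∃ χ ∈ X, χ.IsPrimitive) {u : (ZMod (2 ^ (m + 1)))ˣ} (hu : u ∈ HsG X)
    (hne : u ≠ 1) {a : ℤ} (ha : ((a : ℤ) : ZMod (2 ^ (m + 1))) = u) :
    (4 : ℤ) ∣ a + 1 ∧ ((2 : ℤ) ^ m) ∣ a + 1 := by
  have hodd : ¬ (2 : ℤ) ∣ a := by
    intro h
    have hunit : IsUnit (((a : ℤ) : ZMod (2 ^ (m + 1)))) := by rw [ha]; exact u.isUnit
    have h2 : ((a : ℤ) : ZMod (2 ^ (m + 1))) = (a.natAbs : ℕ) ∨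
        ((a : ℤ) : ZMod (2 ^ (m + 1))) = -(a.natAbs : ℕ) := by
      rcases Int.natAbs_eq a with h | h
      · left; nth_rewrite 1 [h]; simp
      · right; nth_rewrite 1 [h]; simp
    have h3 : IsUnit ((a.natAbs : ℕ) : ZMod (2 ^ (m + 1))) := by
      rcases h2 with h2 | h2
      · rwa [h2] at hunit
      · rw [h2] at hunit; simpa using hunit.neg
    rw [ZMod.isUnit_iff_coprime, Nat.coprime_pow_right_iff (Nat.succ_pos m)] at h3
    have h4 : 2 ∣ a.natAbs := by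
      have := Int.natAbs_dvd_natAbs.mpr h
      simpa using this
    have := Nat.Coprime.eq_one_of_dvd h3.symm h4
    omega
  have h13 : (4 : ℤ) ∣ a - 1 ∨ (4 : ℤ) ∣ a + 1 := by omega
  rcases h13 with h | h
  · exact absurd (eq_one_of_one_mod_four hm hX hu ha h) hne
  · refine ⟨h, ?_⟩
    have hsq : u ^ 2 = 1 := by
      apply eq_one_of_one_mod_four hm hX (pow_mem hu 2) (a := a ^ 2)
      · rw [Int.cast_pow, ha, Units.val_pow_eq_pow_val]
      · have : a ^ 2 - 1 = (a - 1) * (a + 1) := by ring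
        rw [this]; exact h.mul_left _
    exact cast_eq_neg_one_two hsq ha h

end Pool.Agent.H14
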