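import Pool.Agent.H14.PPMain

/-!
# Nonvanishing central values for every abelian field of prime power conductor `p^k`, `k ≥ 2`
-/

namespace Pool.Agent.Results.MP_3b6604_nt.PrimePowerConductor

open Pool.Agent.H14 IsCyclotomicExtension.Rat

/-- Let `p` be a prime, `m ≥ 1`, `K = ℚ(ζ_{p^(m+1)})`, `L = ℚ(ζ_{p^m}) ⊆ K`, and let `F ⊆ K` be a
subfield not contained in `L`, i.e. an abelian number field of conductor `p^(m+1)`.  Then some
irreducible character `χ` of `Gal(F/ℚ)` of the full conductor `p^(m+1)` has `L(1/2, χ) ≠ 0`; in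
fact the number `N` of such `χ` satisfies
`[F : ℚ]² ≤ 625 φ(p^(m+1)) (log p^(m+1) + 3.2) N`. -/
theorem result (p : ℕ) [hp : Fact p.Prime] (m : ℕ) (hm : 1 ≤ m) (K : Type*) [Field K]
    [NumberField K] [IsCyclotomicExtension {p ^ (m + 1)} ℚ K] [IsAbelianGalois ℚ K]
    (L : IntermediateField ℚ K) [IsCyclotomicExtension {p ^ m} ℚ L]
    (F : IntermediateField ℚ K) (hF : ¬ F ≤ L) :
    (Module.finrank ℚ F : ℝ) ^ 2 ≤ 625 * (p ^ (m + 1)).totient *
      (Real.log ((p ^ (m + 1) : ℕ) : ℝ) + 3.2) *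
      (Nat.card {χ : DirichletCharacter ℂ (p ^ (m + 1)) //
        χ ∈ intermediateFieldEquivSubgroupChar (p ^ (m + 1)) K ℂ F ∧ χ.IsPrimitive ∧
        artinL χ (1 / 2) ≠ 0} : ℝ) := by
  rw [← card_intermediateFieldEquivSubgroupChar (R := ℂ) (p ^ (m + 1)) K F]
  apply count_primitive hm
  by_contra hcon
  push Not at hcon
  apply hF
  rw [← (intermediateFieldEquivSubgroupChar (p ^ (m + 1)) K ℂ).le_iff_le]
  intro χ hχ
  have : IsGalois ℚ L := IsCyclotomicExtension.isGalois {p ^ m} ℚ L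
  rw [mem_intermediateFieldEquivSubgroupChar_iff_conductor_dvd (p ^ (m + 1)) K ℂ L
    (pow_dvd_pow p (Nat.le_succ m))]
  have hnp := hcon χ hχ
  rw [isPrimitive_iff, not_not] at hnp
  obtain ⟨ψ, rfl⟩ := hnp
  unfold infl
  rw [DirichletCharacter.conductor_changeLevel]
  exact ψ.conductor_dvd_level

end Pool.Agent.Results.MP_3b6604_nt.PrimePowerConductor
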