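import Mathlib

/-!
# Real subfields of cyclotomic fields correspond to even characters
-/

namespace Pool.Agent.H14

open IsCyclotomicExtension.Rat NumberField

/-- The characters attached to a totally real subfield of `ℚ(ζ_n)` are even. -/
lemma even_of_isTotallyReal (n : ℕ) [NeZero n] (K : Type*) [Field K] [NumberField K]
    [IsCyclotomicExtension {n} ℚ K] [IsAbelianGalois ℚ K] (F : IntermediateField ℚ K)
    [IsTotallyReal F] (χ : DirichletCharacter ℂ n)
    (hχ : χ ∈ intermediateFieldEquivSubgroupChar n K ℂ F) : χ (-1) = 1 := by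
  rw [mem_intermediateFieldEquivSubgroupChar_iff] at hχ
  set σ : Gal(K/ℚ) := (galEquivZMod n K).symm (-1) with hσ
  have hσ' : galEquivZMod n K σ = -1 := by rw [hσ, MulEquiv.apply_symm_apply]
  have key : σ ∈ F.fixingSubgroup := by
    obtain ⟨φ⟩ : Nonempty (K →+* ℂ) := inferInstance
    -- the two embeddings `φ ∘ σ` and `conj ∘ φ` agree
    obtain ⟨ζ, hζ⟩ := IsCyclotomicExtension.exists_isPrimitiveRoot ℚ K (Set.mem_singleton n)
      (NeZero.ne n)
    have hζσ : σ ζ = ζ⁻¹ := by
      rw [galEquivZMod_apply_of_pow_eq n K σ hζ.pow_eq_one, hσ']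
      apply eq_inv_of_mul_eq_one_left
      rw [← pow_succ]
      have h1 : ((((-1 : (ZMod n)ˣ) : ZMod n).val + 1 : ℕ) : ZMod n) = 0 := by
        push_cast
        rw [ZMod.natCast_zmod_val]
        simp
      rw [ZMod.natCast_eq_zero_iff] at h1
      obtain ⟨k, hk⟩ := h1
      rw [hk, pow_mul, hζ.pow_eq_one, one_pow]
    have hφζ : (starRingEnd ℂ) (φ ζ) = φ (σ ζ) := by
      rw [hζσ, map_inv₀]
      have hn : (φ ζ) ^ n = 1 := by rw [← map_pow, hζ.pow_eq_one, map_one]
      have hnorm : ‖φ ζ‖ = 1 := Complex.norm_eq_one_of_pow_eq_one hn (NeZero.ne n)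
      rw [Complex.inv_def, Complex.normSq_eq_norm_sq, hnorm]
      simp
    have hadj : Algebra.adjoin ℚ ({ζ} : Set K) = ⊤ :=
      IsCyclotomicExtension.adjoin_primitive_root_eq_top (A := ℚ) hζ
    have hagree : ((starRingEnd ℂ).comp φ).toRatAlgHom = (φ.comp (σ : K →+* K)).toRatAlgHom := by
      refine AlgHom.ext_of_adjoin_eq_top hadj ?_
      intro x hx
      rw [Set.mem_singleton_iff] at hx
      subst hx
      simpa using hφζ
    rw [IntermediateField.mem_fixingSubgroup_iff]
    intro x hx
    apply φ.injective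
    have h1 : (starRingEnd ℂ) (φ x) = φ (σ x) := by
      have := DFunLike.congr_fun hagree x
      simpa using this
    have h2 : (starRingEnd ℂ) (φ x) = φ x := by
      have hre : ComplexEmbedding.IsReal (φ.comp (algebraMap F K)) := by
        rw [← InfinitePlace.isReal_mk_iff]
        exact IsTotallyReal.isReal _
      have := DFunLike.congr_fun (ComplexEmbedding.isReal_iff.mp hre) ⟨x, hx⟩
      simpa [ComplexEmbedding.conjugate] using this
    rw [← h1, h2]
  have := hχ σ key
  rw [hσ'] at this
  simpa using this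

end Pool.Agent.H14
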