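import Pool.Agent.H14.HurwitzHalf

/-!
# Explicit bounds for `Z x = ζ(1/2, x)`, `0 < x ≤ 1`
-/

open Filter Topology Set

namespace Pool.Agent.H14

/-- `b(m) = 1/√m - 2(√(m+1) - √m)`. -/
noncomputable def bf (m : ℝ) : ℝ := 1 / √m - 2 * (√(m + 1) - √m)

lemma bterm_eq (x : ℝ) (n : ℕ) : bterm x n = bf ((n : ℝ) + x) := rfl

lemma sqrt_gap {m : ℝ} (hm : 0 < m) : (√(m + 1) - √m) * (√(m + 1) + √m) = 1 := by
  have s0 : √m ^ 2 = m := Real.sq_sqrt hm.le
  have s1 : √(m + 1) ^ 2 = m + 1 := Real.sq_sqrt (by linarith)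
  nlinarith

/-- closed form of the term `b(m)`. -/
lemma bf_eq {m : ℝ} (hm : 0 < m) : bf m = (√(m + 1) - √m) ^ 2 / √m := by
  have h0 : 0 < √m := Real.sqrt_pos.mpr hm
  have hg := sqrt_gap hm
  unfold bf
  rw [eq_div_iff h0.ne', sub_mul, div_mul_cancel₀ _ h0.ne']
  nlinarith

lemma bf_nonneg {m : ℝ} (hm : 0 < m) : 0 ≤ bf m := by
  rw [bf_eq hm]; positivity

lemma bf_lower {m : ℝ} (hm : 0 < m) : (1 / 2) * (1 / √m - 1 / √(m + 1)) ≤ bf m := by
  have h0 : 0 < √m := Real.sqrt_pos.mpr hm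
  have h1 : 0 < √(m + 1) := Real.sqrt_pos.mpr (by linarith)
  have hle : √m ≤ √(m + 1) := Real.sqrt_le_sqrt (by linarith)
  have hg := sqrt_gap hm
  rw [bf_eq hm]
  set u := √m
  set v := √(m + 1)
  have e : (1 / 2) * (1 / u - 1 / v) = (v - u) / (2 * v) / u := by field_simp
  rw [e]
  apply div_le_div_of_nonneg_right _ h0.le
  rw [div_le_iff₀ (by positivity)]
  have h3 : 0 ≤ v - u := by linarith
  nlinarith [mul_nonneg h3 (mul_nonneg h3 h3), mul_nonneg h3 h3]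

lemma bf_upper {m : ℝ} (hm : 1 ≤ m) : bf m ≤ (2 - √2) * (1 / √m - 1 / √(m + 1)) := by
  have hm0 : 0 < m := by linarith
  have h0 : 0 < √m := Real.sqrt_pos.mpr hm0
  have h1 : 0 < √(m + 1) := Real.sqrt_pos.mpr (by linarith)
  have hle : √m ≤ √(m + 1) := Real.sqrt_le_sqrt (by linarith)
  have hg := sqrt_gap hm0
  have h2 : √2 ^ 2 = 2 := Real.sq_sqrt (by norm_num)
  have h2' : 1 ≤ √2 := by
    rw [show (1:ℝ) = √1 by simp]; exact Real.sqrt_le_sqrt (by norm_num)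
  have hvu : √(m + 1) ≤ √2 * √m := by
    rw [← Real.sqrt_mul (by norm_num)]; exact Real.sqrt_le_sqrt (by linarith)
  rw [bf_eq hm0]
  set u := √m
  set v := √(m + 1)
  have e : (2 - √2) * (1 / u - 1 / v) = ((2 - √2) * (v - u) / v) / u := by field_simp
  rw [e]
  apply div_le_div_of_nonneg_right _ h0.le
  rw [le_div_iff₀ h1]
  have h3 : 0 ≤ v - u := by linarith
  -- v ≤ (2 - √2)(v+u)
  have key : v ≤ (2 - √2) * (v + u) := by nlinarith
  have : (v - u) ^ 2 * v ≤ (v - u) ^ 2 * ((2 - √2) * (v + u)) :=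
    mul_le_mul_of_nonneg_left key (by positivity)
  calc (v - u) ^ 2 * v ≤ (v - u) ^ 2 * ((2 - √2) * (v + u)) := this
    _ = (2 - √2) * (v - u) * ((v - u) * (v + u)) := by ring
    _ = _ := by rw [hg, mul_one]

lemma bf_antitone {m m' : ℝ} (hm : 0 < m) (h : m ≤ m') : bf m' ≤ bf m := by
  have hm' : 0 < m' := by linarith
  rw [bf_eq hm, bf_eq hm']
  have h0 : 0 < √m := Real.sqrt_pos.mpr hm
  have hu : √m ≤ √m' := Real.sqrt_le_sqrt h
  have hv : √(m + 1) ≤ √(m' + 1) := Real.sqrt_le_sqrt (by linarith)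
  have g := sqrt_gap hm
  have g' := sqrt_gap hm'
  have hpos : 0 < √(m + 1) + √m := by positivity
  have hpos' : 0 < √(m' + 1) + √m' := by positivity
  have e : √(m + 1) - √m = 1 / (√(m + 1) + √m) := by rw [eq_div_iff hpos.ne']; exact g
  have e' : √(m' + 1) - √m' = 1 / (√(m' + 1) + √m') := by rw [eq_div_iff hpos'.ne']; exact g'
  rw [e, e']
  gcongr

/-- The regular part: `W x = ζ(1/2, 1 + x)`. -/
noncomputable def W (x : ℝ) : ℝ := -2 * √(1 + x) + ∑' n : ℕ, bf (((n : ℝ) + 1) + x)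

lemma summable_bf {x : ℝ} (hx : 0 < x) : Summable fun n : ℕ => bf ((n : ℝ) + x) :=
  summable_bterm hx

lemma summable_bf_succ {x : ℝ} (hx : 0 < x) : Summable fun n : ℕ => bf (((n : ℝ) + 1) + x) := by
  have := (summable_nat_add_iff 1).mpr (summable_bf hx)
  refine this.congr fun n => ?_
  push_cast
  ring_nf

lemma Z_eq_W {x : ℝ} (hx : 0 < x) : Z x = 1 / √x + W x := by
  unfold Z W
  have h := (summable_bf hx).tsum_eq_zero_add
  have h0 : bterm x = fun n : ℕ => bf ((n : ℝ) + x) := rfl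
  rw [h0, h]
  have e : (∑' n : ℕ, bf (((n + 1 : ℕ) : ℝ) + x)) = ∑' n : ℕ, bf (((n : ℝ) + 1) + x) := by
    congr 1; ext n; push_cast; rfl
  rw [e]
  simp only [Nat.cast_zero, zero_add]
  unfold bf
  rw [show x + 1 = 1 + x by ring]
  ring

lemma tendsto_inv_sqrt (x : ℝ) : Tendsto (fun N : ℕ => 1 / √((N : ℝ) + 1 + x)) atTop (𝓝 0) := by
  have h3 : Tendsto (fun N : ℕ => (N : ℝ) + 1 + x) atTop atTop :=
    tendsto_atTop_add_const_right _ _
      (tendsto_atTop_add_const_right _ _ tendsto_natCast_atTop_atTop)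
  have h4 : Tendsto (fun N : ℕ => √((N : ℝ) + 1 + x)) atTop atTop :=
    Real.tendsto_sqrt_atTop.comp h3
  simp_rw [one_div]
  exact h4.inv_tendsto_atTop

lemma hasSum_tele {x : ℝ} (hx : 0 < x) :
    HasSum (fun n : ℕ => (1 / √((n : ℝ) + 1 + x) - 1 / √((n : ℝ) + 1 + x + 1)))
      (1 / √(1 + x)) := by
  have hnn : ∀ n : ℕ, 0 ≤ (1 / √((n : ℝ) + 1 + x) - 1 / √((n : ℝ) + 1 + x + 1)) := by
    intro n
    have h1 : 0 < √((n : ℝ) + 1 + x) := Real.sqrt_pos.mpr (by positivity)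
    have h2 : √((n : ℝ) + 1 + x) ≤ √((n : ℝ) + 1 + x + 1) := Real.sqrt_le_sqrt (by linarith)
    have := one_div_le_one_div_of_le h1 h2
    linarith
  rw [hasSum_iff_tendsto_nat_of_nonneg hnn]
  have e : ∀ N : ℕ, ∑ i ∈ Finset.range N, (1 / √((i : ℝ) + 1 + x) - 1 / √((i : ℝ) + 1 + x + 1))
      = 1 / √(1 + x) - 1 / √((N : ℝ) + 1 + x) := by
    intro N
    induction N with
    | zero => simp
    | succ k ih =>
      rw [Finset.sum_range_succ, ih]
      push_cast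
      rw [show (k : ℝ) + 1 + x + 1 = (k : ℝ) + 1 + 1 + x by ring]
      ring
  simp_rw [e]
  have := (tendsto_inv_sqrt x).const_sub (1 / √(1 + x))
  simpa using this

/-- Lower bound for the regular part. -/
lemma W_lower {x : ℝ} (hx : 0 < x) : -2 * √(1 + x) + (1 / 2) * (1 / √(1 + x)) ≤ W x := by
  unfold W
  have h1 := (hasSum_tele hx).mul_left (1 / 2)
  have h2 := (summable_bf_succ hx).hasSum
  have := hasSum_le (fun n : ℕ => bf_lower (m := (n : ℝ) + 1 + x) (by positivity)) h1 h2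
  linarith

/-- Upper bound for the regular part. -/
lemma W_upper {x : ℝ} (hx : 0 < x) : W x ≤ -2 * √(1 + x) + (2 - √2) * (1 / √(1 + x)) := by
  unfold W
  have h1 := (hasSum_tele hx).mul_left (2 - √2)
  have h2 := (summable_bf_succ hx).hasSum
  have := hasSum_le (fun n : ℕ => bf_upper (m := (n : ℝ) + 1 + x) (by
    have : (0:ℝ) ≤ n := by positivity
    linarith)) h2 h1
  linarith

lemma W_antitone {x y : ℝ} (hx : 0 < x) (h : x ≤ y) : W y ≤ W x := by
  unfold W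
  have hy : 0 < y := by linarith
  have h1 : √(1 + x) ≤ √(1 + y) := Real.sqrt_le_sqrt (by linarith)
  have h2 := hasSum_le (fun n : ℕ => bf_antitone (m := (n : ℝ) + 1 + x) (m' := (n : ℝ) + 1 + y)
    (by positivity) (by linarith)) (summable_bf_succ hy).hasSum (summable_bf_succ hx).hasSum
  linarith

/-- the elementary lower bound function. -/
noncomputable def zl (x : ℝ) : ℝ := 1 / √x - 2 * √(1 + x) + (1 / 2) * (1 / √(1 + x))

lemma zl_le_Z {x : ℝ} (hx : 0 < x) : zl x ≤ Z x := by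
  rw [Z_eq_W hx]; unfold zl; linarith [W_lower hx]

lemma sqrt_one_add_mono {x y : ℝ} (h : x ≤ y) : √(1 + x) ≤ √(1 + y) :=
  Real.sqrt_le_sqrt (by linarith)

/-- on `x ≤ δ` the regular part of `zl` is at least its value at `δ`. -/
lemma zl_ge {x δ : ℝ} (hx : 0 < x) (hδ : x ≤ δ) :
    1 / √x - 2 * √(1 + δ) + (1 / 2) * (1 / √(1 + δ)) ≤ zl x := by
  unfold zl
  have h1 := sqrt_one_add_mono hδ
  have h0 : 0 < √(1 + x) := Real.sqrt_pos.mpr (by linarith)
  have h2 := one_div_le_one_div_of_le h0 h1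
  linarith

/-- uniform upper bound: `Z x ≤ 1/√x - √2`. -/
lemma Z_upper {x : ℝ} (hx : 0 < x) : Z x ≤ 1 / √x - √2 := by
  rw [Z_eq_W hx]
  have h := W_upper hx
  have h2 : √2 ^ 2 = 2 := Real.sq_sqrt (by norm_num)
  have h2' : √2 ≤ 2 := by
    rw [show (2:ℝ) = √4 by rw [show (4:ℝ) = 2 ^ 2 by norm_num]; simp]
    exact Real.sqrt_le_sqrt (by norm_num)
  have h1 : 1 ≤ √(1 + x) := by
    rw [show (1:ℝ) = √1 by simp]; exact Real.sqrt_le_sqrt (by simp; linarith)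
  have h3 : 1 / √(1 + x) ≤ 1 := by rw [div_le_one (by linarith)]; exact h1
  nlinarith

/-- If `a² + b² = S` then `a + b ≤ √(2S)`. -/
lemma add_le_sqrt_aux {a b r : ℝ} (hr : 0 ≤ r) (h : 2 * (a ^ 2 + b ^ 2) = r ^ 2) : a + b ≤ r := by
  apply (abs_le_of_sq_le_sq' _ hr).2
  nlinarith [sq_nonneg (a - b)]

lemma inv_add_inv_aux {a b r : ℝ} (ha : 0 < a) (hb : 0 < b) (hr : 0 < r) (h : a + b ≤ r) :
    4 / r ≤ 1 / a + 1 / b := by
  have h1 : 4 / r ≤ 4 / (a + b) := div_le_div_of_nonneg_left (by norm_num) (by positivity) h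
  refine h1.trans ?_
  rw [div_add_div _ _ ha.ne' hb.ne', div_le_div_iff₀ (by positivity) (by positivity)]
  nlinarith [sq_nonneg (a - b)]

lemma four_div_sqrt_two : 4 / √2 = 2 * √2 := by
  have s2 : √2 * √2 = 2 := Real.mul_self_sqrt (by norm_num)
  have p2 : √2 ≠ 0 := by positivity
  rw [div_eq_iff p2]; linarith

lemma four_div_sqrt_six : 4 / √6 = 2 / 3 * √6 := by
  have s6 : √6 * √6 = 6 := Real.mul_self_sqrt (by norm_num)
  have p6 : √6 ≠ 0 := by positivity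
  rw [div_eq_iff p6]; linarith

/-- the symmetrised lower bound `Z x + Z (1-x) ≥ 2√2 - (5/3)√6`. -/
lemma Z_add_symm {x : ℝ} (hx : 0 < x) (hx1 : x < 1) :
    2 * √2 - 5 / 3 * √6 ≤ Z x + Z (1 - x) := by
  have h1x : 0 < 1 - x := by linarith
  have hA := zl_le_Z hx
  have hB := zl_le_Z h1x
  unfold zl at hA hB
  rw [show (1:ℝ) + (1 - x) = 2 - x by ring] at hB
  have a0 : 0 < √x := Real.sqrt_pos.mpr hx
  have b0 : 0 < √(1 - x) := Real.sqrt_pos.mpr h1x
  have c0 : 0 < √(1 + x) := Real.sqrt_pos.mpr (by linarith)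
  have d0 : 0 < √(2 - x) := Real.sqrt_pos.mpr (by linarith)
  have sa : √x ^ 2 = x := Real.sq_sqrt hx.le
  have sb : √(1 - x) ^ 2 = 1 - x := Real.sq_sqrt h1x.le
  have sc : √(1 + x) ^ 2 = 1 + x := Real.sq_sqrt (by linarith)
  have sd : √(2 - x) ^ 2 = 2 - x := Real.sq_sqrt (by linarith)
  have s2 : √2 ^ 2 = 2 := Real.sq_sqrt (by norm_num)
  have s6 : √6 ^ 2 = 6 := Real.sq_sqrt (by norm_num)
  have p2 : 0 < √2 := by positivity
  have p6 : 0 < √6 := by positivity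
  have hab : √x + √(1 - x) ≤ √2 := add_le_sqrt_aux p2.le (by rw [sa, sb, s2]; ring)
  have hcd : √(1 + x) + √(2 - x) ≤ √6 := add_le_sqrt_aux p6.le (by rw [sc, sd, s6]; ring)
  have h4 := inv_add_inv_aux a0 b0 p2 hab
  have h5 := inv_add_inv_aux c0 d0 p6 hcd
  rw [four_div_sqrt_two] at h4
  rw [four_div_sqrt_six] at h5
  linarith

end Pool.Agent.H14
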